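import Pool.Agent.Run7.h850.PC.Cor
import Pool.Agent.Y227.SS.StableFinal

set_option autoImplicit false

/-!
Systems of rank two with four points with non-integral differences of exponents.
-/

open Finset

namespace Run7.h850.PC

open Polynomial Pool.Agent.TH571.PCV Pool.Agent.Y227.SS Pool.Agent.R340.SY Pool.Agent.W432.PC

universe u

/-- The sum of `gam` over the sixteen sums of exponents minus four times the sum over the four
differences. -/
def excS {n : ℕ} (lam : Fin n → Fin 2 → ℚ) (phi : Fin 2 → ℚ) (P : Fin 4 → Option (Fin n)) : ℚ :=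
  excess (fun i => diff lam phi (P i)) (total lam phi P)

section

variable {R : Type u} [CommRing R] [IsDomain R] {n : ℕ}

/-- There are a set `S` of residue classes modulo `N`, prime to `N`, of proportion at least `ε`
(`ε * φ(N) ≤ #S`) and a nonzero `g` in `R` such that the `p`-curvature is nonzero at every closed point
of `Spec R[1/g]` whose residue characteristic is a large prime `p` in one of these classes. -/
def NonzeroPCurv (α : Fin n → R) (A : Fin n → Matrix (Fin 2) (Fin 2) R) (N : ℕ) (ε : ℝ) : Prop :=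
  ∃ (S : Finset (ZMod N)ˣ) (g : R) (P₀ : ℕ), ε * N.totient ≤ S.card ∧ g ≠ 0 ∧
    ∀ p : ℕ, p.Prime → P₀ < p → (∃ v ∈ S, ((p : ℕ) : ZMod N) = ((v : (ZMod N)ˣ) : ZMod N)) →
      ∀ (𝔪 : Ideal R) [𝔪.IsMaximal], (p : R) ∈ 𝔪 → g ∉ 𝔪 → ¬ PCurvZeroAt α A 𝔪

/-- Collecting the classes. -/
lemma collectS (α : Fin n → R) (A : Fin n → Matrix (Fin 2) (Fin 2) R) (N : ℕ) (hN : 0 < N)
    (ε : ℝ) (S : Finset (ZMod N)ˣ) (hS : ε * N.totient ≤ S.card)
    (h : ∀ u ∈ S, ∃ a : ℤ, ((a : ℤ) : ZMod N) = ((u : (ZMod N)ˣ) : ZMod N) ∧ ∃ g : R, g ≠ 0 ∧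
      ∃ P₀ : ℕ, ∀ p : ℕ, p.Prime → P₀ < p → (N : ℤ) ∣ a * p + 1 →
        ∀ (𝔪 : Ideal R) [𝔪.IsMaximal], (p : R) ∈ 𝔪 → g ∉ 𝔪 → ¬ PCurvZeroAt α A 𝔪) :
    NonzeroPCurv α A N ε := by
  classical
  have : NeZero N := ⟨hN.ne'⟩
  choose! a ha g hg P hP using h
  refine ⟨S.image (fun u => -u⁻¹), ∏ u ∈ S, g u, S.sup P, ?_, ?_, ?_⟩
  · rw [Finset.card_image_of_injective]
    · exact hS
    · intro u v huv
      have h1 : -u⁻¹ = -v⁻¹ := huv
      exact inv_injective (neg_injective h1)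
  · exact Finset.prod_ne_zero_iff.mpr hg
  · rintro p hp hpP ⟨v, hv, hpv⟩ 𝔪 h𝔪 hpm hgm
    obtain ⟨u, hu, rfl⟩ := Finset.mem_image.mp hv
    refine hP u hu p hp (lt_of_le_of_lt (Finset.le_sup hu) hpP) ?_ 𝔪 hpm ?_
    · rw [← ZMod.intCast_zmod_eq_zero_iff_dvd]
      push_cast
      rw [ha u hu, hpv, Units.val_neg, mul_neg, Units.mul_inv, neg_add_cancel]
    · intro hgu
      exact hgm (𝔪.mem_of_dvd (Finset.dvd_prod_of_mem g hu) hgu)

variable [CharZero R]

/-- The trace relation. -/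
lemma trace2 {A : Fin n → Matrix (Fin 2) (Fin 2) R} {lam : Fin n → Fin 2 → ℚ} {phi : Fin 2 → ℚ}
    (hlam : ∀ j, HasExponents (A j) (lam j)) (hphi : HasExponents (∑ j, A j) phi) :
    ∑ j, (lam j 0 + lam j 1) = phi 0 + phi 1 + ((0 : ℤ) : ℚ) := by
  have := charZero_fraction (R := R)
  have h1 := hphi.trace
  rw [Matrix.trace_sum, map_sum] at h1
  have h2 : ∑ j, algebraMap R (FractionRing R) (A j).trace =
      ((∑ j, ∑ l, lam j l : ℚ) : FractionRing R) := by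
    push_cast
    refine Finset.sum_congr rfl fun j _ => ?_
    rw [(hlam j).trace]
    push_cast
    rfl
  rw [h2] at h1
  have h3 : (∑ j, ∑ l, lam j l : ℚ) = ∑ l, phi l := by
    have h4 : ((∑ j, ∑ l, lam j l : ℚ) : FractionRing R) = ((∑ l, phi l : ℚ) : FractionRing R) := by
      rw [h1]
    exact_mod_cast h4
  simp only [Fin.sum_univ_two] at h3
  rw [h3]
  push_cast
  ring

variable [Algebra.FiniteType ℤ R]

theorem sys_bad (α : Fin n → R) (hα : ∀ i j, i ≠ j → IsUnit (α i - α j))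
    (A : Fin n → Matrix (Fin 2) (Fin 2) R) (lam : Fin n → Fin 2 → ℚ) (phi : Fin 2 → ℚ)
    (hlam : ∀ j, HasExponents (A j) (lam j)) (hphi : HasExponents (∑ j, A j) phi)
    (hirr : AbsIrreducible α A) {P : Fin 4 → Option (Fin n)}
    (hP : Function.Injective P) (hint : ∀ x ∈ rest P, (diff lam phi x).den = 1)
    (hθ : ∀ i, (diff lam phi (P i)).den ≠ 1) (hs : ∀ κ, (total lam phi P κ).den ≠ 1) {N : ℕ}
    (hN : 0 < N) (hNlam : ∀ j l, ∃ m : ℤ, (N : ℚ) * lam j l = m)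
    (hNphi : ∀ l, ∃ m : ℤ, (N : ℚ) * phi l = m) :
    NonzeroPCurv α A N (3 / 74 * (4 / 15 - ((excS lam phi P : ℚ) : ℝ))) := by
  classical
  have : NeZero N := ⟨hN.ne'⟩
  refine collectS α A N hN _ _ (weights_avg hP (trace2 hlam hphi) hNlam hNphi hint hθ hs)
    fun u hu => ⟨(((u : ZMod N).val : ℕ) : ℤ), by push_cast; rw [ZMod.natCast_zmod_val], ?_⟩
  exact (Pool.Agent.Y227.SS.final α hα A lam phi hlam hphi N hN hNlam hNphi _).2.1 hirr
    (mem_filter.1 hu).2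

theorem sys_not_condII (α : Fin n → R) (hα : ∀ i j, i ≠ j → IsUnit (α i - α j))
    (A : Fin n → Matrix (Fin 2) (Fin 2) R) (lam : Fin n → Fin 2 → ℚ) (phi : Fin 2 → ℚ)
    (hlam : ∀ j, HasExponents (A j) (lam j)) (hphi : HasExponents (∑ j, A j) phi)
    (hirr : AbsIrreducible α A) {P : Fin 4 → Option (Fin n)}
    (hP : Function.Injective P) (hint : ∀ x ∈ rest P, (diff lam phi x).den = 1)
    (hθ : ∀ i, (diff lam phi (P i)).den ≠ 1) (hs : ∀ κ, (total lam phi P κ).den ≠ 1)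
    (hE : excS lam phi P < 4 / 15) {N : ℕ}
    (hN : 0 < N) (hNlam : ∀ j l, ∃ m : ℤ, (N : ℚ) * lam j l = m)
    (hNphi : ∀ l, ∃ m : ℤ, (N : ℚ) * phi l = m) : ¬ CondII α A := by
  classical
  have : NeZero N := ⟨hN.ne'⟩
  have hφ : (0 : ℝ) < N.totient := by exact_mod_cast Nat.totient_pos.2 hN
  have hE' : ((excS lam phi P : ℚ) : ℝ) < 4 / 15 := by
    have : ((excS lam phi P : ℚ) : ℝ) < ((4 / 15 : ℚ) : ℝ) := by exact_mod_cast hE
    norm_num at this
    exact this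
  have h1 := weights_avg hP (trace2 hlam hphi) hNlam hNphi hint hθ hs
  have h2 : (0 : ℝ) < 3 / 74 * (4 / 15 - ((excess (fun i => diff lam phi (P i))
      (total lam phi P) : ℚ) : ℝ)) * N.totient := by
    have : (0 : ℝ) < 4 / 15 - ((excS lam phi P : ℚ) : ℝ) := by linarith
    unfold excS at this
    positivity
  have h3 : (0 : ℝ) < (univ.filter fun u : (ZMod N)ˣ => ¬ StableWeights ℂ
        (fun j l => ((((u : ZMod N).val : ℤ)) : ℝ) * lam j l)
        (fun l => ((((u : ZMod N).val : ℤ)) : ℝ) * phi l)).card := h2.trans_le h1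
  have h4 : 0 < (univ.filter fun u : (ZMod N)ˣ => ¬ StableWeights ℂ
        (fun j l => ((((u : ZMod N).val : ℤ)) : ℝ) * lam j l)
        (fun l => ((((u : ZMod N).val : ℤ)) : ℝ) * phi l)).card := by exact_mod_cast h3
  obtain ⟨u, hu⟩ := card_pos.1 h4
  have hcop : IsCoprime (((u : ZMod N).val : ℕ) : ℤ) (N : ℤ) :=
    Nat.isCoprime_iff_coprime.2 (ZMod.val_coe_unit_coprime u)
  intro hII
  exact (mem_filter.1 hu).2 (((Pool.Agent.Y227.SS.final α hα A lam phi hlam hphi N hN hNlam hNphi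
    _).2.2 hcop hII).2 hirr)

end

end Run7.h850.PC
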