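import Pool.Agent.Run7.h850.PC.Unit

set_option autoImplicit false

/-!
The average over the conjugates.
-/

open Finset

namespace Run7.h850.PC

open Pool.Agent.TH571.PCV

/-- The sum of `gam` over the sixteen sums of exponents minus four times the sum over the
differences. -/
def excess (θ : Fin 4 → ℚ) (s : (Fin 4 → Fin 2) → ℚ) : ℚ := ∑ κ, gam (s κ) - 4 * ∑ i, gam (θ i)

section

variable {N : ℕ} [NeZero N] {θ : Fin 4 → ℚ} {s : (Fin 4 → Fin 2) → ℚ} {e : ℤ}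

/-- The multiples of the differences by a unit. -/
noncomputable def yy (θ : Fin 4 → ℚ) (u : (ZMod N)ˣ) : Fin 4 → ℝ :=
  fun i => (((u : ZMod N).val : ℕ) : ℝ) * ((θ i : ℚ) : ℝ)

omit [NeZero N] in
lemma hs_yy (hse : ∀ κ, ∃ z : ℤ, (∑ i, (sz (κ i) : ℚ) * θ i + e) / 2 = s κ + z) (u : (ZMod N)ˣ)
    (κ : Fin 4 → Fin 2) : ∃ z : ℤ, hs (yy θ u) ((((u : ZMod N).val : ℤ) * e : ℤ) : ℝ) κ =
      (((u : ZMod N).val : ℕ) : ℝ) * ((s κ : ℚ) : ℝ) + z := by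
  obtain ⟨z, hz⟩ := hse κ
  refine ⟨((u : ZMod N).val : ℤ) * z, ?_⟩
  have h1 : (∑ i, (sz (κ i) : ℝ) * ((θ i : ℚ) : ℝ) + e) / 2 = ((s κ : ℚ) : ℝ) + z := by
    exact_mod_cast congrArg (fun x : ℚ => (x : ℝ)) hz
  unfold hs yy
  have h2 : ∑ i, sg (κ i) * ((((u : ZMod N).val : ℕ) : ℝ) * ((θ i : ℚ) : ℝ)) =
      (((u : ZMod N).val : ℕ) : ℝ) * ∑ i, (sz (κ i) : ℝ) * ((θ i : ℚ) : ℝ) := by
    rw [mul_sum]
    refine sum_congr rfl fun i _ => ?_
    rw [sg_eq]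
    ring
  rw [h2]
  push_cast
  linear_combination (((u : ZMod N).val : ℕ) : ℝ) * h1

/-- The average of the quadratic function. -/
theorem sum_KK (hθ : ∀ i, ∃ z : ℤ, (N : ℚ) * θ i = z) (hs' : ∀ κ, ∃ z : ℤ, (N : ℚ) * s κ = z)
    (hse : ∀ κ, ∃ z : ℤ, (∑ i, (sz (κ i) : ℚ) * θ i + e) / 2 = s κ + z) :
    6 * ∑ u : (ZMod N)ˣ, KK (yy θ u) ((((u : ZMod N).val : ℤ) * e : ℤ) : ℝ) =
      N.totient * ((excess θ s : ℚ) : ℝ) := by
  have hNq : (N : ℚ) ≠ 0 := by exact_mod_cast NeZero.ne N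
  have h1 : ∀ i, 6 * ∑ u : (ZMod N)ˣ, qf (yy θ u i) = N.totient * (1 - ((gam (θ i) : ℚ) : ℝ)) := by
    intro i
    obtain ⟨z, hz⟩ := hθ i
    have h2 : θ i = (z : ℚ) / N := by rw [← hz]; field_simp
    rw [h2]
    rw [← unit_qf (N := N) z]
    congr 1
    refine sum_congr rfl fun u _ => ?_
    unfold yy
    rw [h2]
    push_cast
    rfl
  have h2 : ∀ κ, 6 * ∑ u : (ZMod N)ˣ, qf (hs (yy θ u) ((((u : ZMod N).val : ℤ) * e : ℤ) : ℝ) κ) =
      N.totient * (1 - ((gam (s κ) : ℚ) : ℝ)) := by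
    intro κ
    obtain ⟨z, hz⟩ := hs' κ
    have h3 : s κ = (z : ℚ) / N := by rw [← hz]; field_simp
    have h4 : ∀ u : (ZMod N)ˣ, qf (hs (yy θ u) ((((u : ZMod N).val : ℤ) * e : ℤ) : ℝ) κ) =
        qf ((((u : ZMod N).val : ℕ) : ℝ) * ((z : ℝ) / N)) := by
      intro u
      obtain ⟨k, hk⟩ := hs_yy hse u κ
      rw [hk, qf_add_int, h3]
      push_cast
      rfl
    rw [sum_congr rfl fun u _ => h4 u, unit_qf, h3]
  unfold KK excess
  rw [sum_sub_distrib, ← mul_sum, sum_comm, sum_comm (s := univ (α := (ZMod N)ˣ))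
    (f := fun u κ => qf (hs (yy θ u) ((((u : ZMod N).val : ℤ) * e : ℤ) : ℝ) κ)), mul_sub, mul_sum,
    mul_sum, mul_sum]
  have h5 : ∑ i, 6 * (4 * ∑ u : (ZMod N)ˣ, qf (yy θ u i)) =
      ∑ i, 4 * (N.totient * (1 - ((gam (θ i) : ℚ) : ℝ))) := by
    refine sum_congr rfl fun i _ => ?_
    rw [← h1 i]
    ring
  rw [h5, sum_congr rfl fun κ _ => h2 κ]
  have h6 : ((Fintype.card (Fin 4 → Fin 2) : ℕ) : ℝ) = 16 := by simp
  rw [← mul_sum, ← mul_sum, ← mul_sum, sum_sub_distrib, sum_sub_distrib, sum_const, sum_const,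
    card_univ, card_univ, nsmul_eq_mul, nsmul_eq_mul, h6, Fintype.card_fin]
  push_cast
  ring

/-- **The average.** If the point is stable for all conjugates outside a set, the excess is large
or the set is large. -/
theorem average (hθ : ∀ i, ∃ z : ℤ, (N : ℚ) * θ i = z) (hs' : ∀ κ, ∃ z : ℤ, (N : ℚ) * s κ = z)
    (hse : ∀ κ, ∃ z : ℤ, (∑ i, (sz (κ i) : ℚ) * θ i + e) / 2 = s κ + z)
    (hθ0 : ∀ i, ¬ ∃ z : ℤ, θ i = z) (hs0 : ∀ κ, ¬ ∃ z : ℤ, s κ = z) (B : Finset (ZMod N)ˣ)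
    (hB : ∀ u ∉ B, ∀ n : Fin 4 → ℤ, Odd (∑ i, n i + ((u : ZMod N).val : ℤ) * e) →
      1 < ∑ i, |yy θ u i + n i|) :
    3 / 74 * (4 / 15 - ((excess θ s : ℚ) : ℝ)) * N.totient ≤ B.card := by
  classical
  have hNq : (N : ℚ) ≠ 0 := by exact_mod_cast NeZero.ne N
  -- the tents
  have t1 : ∀ i, 720 * ∑ u : (ZMod N)ˣ, tent (1 / 36) (yy θ u i) ≤ N.totient := by
    intro i
    obtain ⟨z, hz⟩ := hθ i
    have h2 : θ i = (z : ℚ) / N := by rw [← hz]; field_simp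
    have h3 : ¬ (N : ℤ) ∣ z := by
      rintro ⟨k, hk⟩
      refine hθ0 i ⟨k, ?_⟩
      rw [h2, hk]
      push_cast
      field_simp
    refine le_trans (le_of_eq ?_) (unit_tent h3)
    congr 1
    refine sum_congr rfl fun u _ => ?_
    unfold yy
    rw [h2]
    push_cast
    rfl
  have t2 : ∀ κ, 720 * ∑ u : (ZMod N)ˣ,
      tent (1 / 36) (hs (yy θ u) ((((u : ZMod N).val : ℤ) * e : ℤ) : ℝ) κ) ≤ N.totient := by
    intro κ
    obtain ⟨z, hz⟩ := hs' κ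
    have h3 : s κ = (z : ℚ) / N := by rw [← hz]; field_simp
    have h4 : ¬ (N : ℤ) ∣ z := by
      rintro ⟨k, hk⟩
      refine hs0 κ ⟨k, ?_⟩
      rw [h3, hk]
      push_cast
      field_simp
    refine le_trans (le_of_eq ?_) (unit_tent h4)
    congr 1
    refine sum_congr rfl fun u _ => ?_
    obtain ⟨k, hk⟩ := hs_yy hse u κ
    rw [hk, tent_add_int, h3]
    push_cast
    rfl
  set T : (ZMod N)ˣ → ℝ := fun u => ∑ i, tent (1 / 36) (yy θ u i) +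
    (∑ κ, tent (1 / 36) (hs (yy θ u) ((((u : ZMod N).val : ℤ) * e : ℤ) : ℝ) κ)) / 2 with hT
  have hT0 : ∀ u, 0 ≤ T u := by
    intro u
    have h1 : 0 ≤ ∑ i, tent (1 / 36) (yy θ u i) := sum_nonneg fun _ _ => tent_nonneg _ _
    have h2 : 0 ≤ ∑ κ, tent (1 / 36) (hs (yy θ u) ((((u : ZMod N).val : ℤ) * e : ℤ) : ℝ) κ) :=
      sum_nonneg fun _ _ => tent_nonneg _ _
    simp only [hT]
    linarith
  have hTs : 60 * ∑ u, T u ≤ N.totient := by
    have h1 : ∑ u, T u = ∑ i, ∑ u : (ZMod N)ˣ, tent (1 / 36) (yy θ u i) +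
        (∑ κ, ∑ u : (ZMod N)ˣ,
          tent (1 / 36) (hs (yy θ u) ((((u : ZMod N).val : ℤ) * e : ℤ) : ℝ) κ)) / 2 := by
      simp only [hT]
      rw [sum_add_distrib, ← sum_div, sum_comm]
      congr 2
      exact sum_comm
    have h2 : ∑ i : Fin 4, 720 * ∑ u : (ZMod N)ˣ, tent (1 / 36) (yy θ u i) ≤
        ∑ i : Fin 4, (N.totient : ℝ) := sum_le_sum fun i _ => t1 i
    have h3 : ∑ κ, 720 * ∑ u : (ZMod N)ˣ,
          tent (1 / 36) (hs (yy θ u) ((((u : ZMod N).val : ℤ) * e : ℤ) : ℝ) κ) ≤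
        ∑ κ : Fin 4 → Fin 2, (N.totient : ℝ) := sum_le_sum fun κ _ => t2 κ
    have h6 : ((Fintype.card (Fin 4 → Fin 2) : ℕ) : ℝ) = 16 := by simp
    rw [← mul_sum, sum_const, card_univ, nsmul_eq_mul] at h2 h3
    rw [h6] at h3
    rw [Fintype.card_fin] at h2
    push_cast at h2
    rw [h1]
    linarith
  have hlow : ∀ u : (ZMod N)ˣ, 4 * (1 / 36 - T u) - (if u ∈ B then 37 / 9 else 0) ≤
      KK (yy θ u) ((((u : ZMod N).val : ℤ) * e : ℤ) : ℝ) := by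
    intro u
    split_ifs with hu
    · have h1 := KK_ge (yy θ u) ((((u : ZMod N).val : ℤ) * e : ℤ) : ℝ)
      have h2 := hT0 u
      linarith
    · have h1 := cell_tent (yy θ u) (((u : ZMod N).val : ℤ) * e) (hB u hu) (1 / 36)
      rw [sub_zero]
      refine le_trans (le_of_eq ?_) h1
      simp only [hT]
      ring
  have hsum := sum_le_sum fun u (_ : u ∈ univ (α := (ZMod N)ˣ)) => hlow u
  have h1 := sum_KK (N := N) (θ := θ) (s := s) (e := e) hθ hs' hse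
  have h2 : ∑ u : (ZMod N)ˣ, (4 * (1 / 36 - T u) - (if u ∈ B then (37 / 9 : ℝ) else 0)) =
      4 * (1 / 36 * N.totient - ∑ u, T u) - 37 / 9 * B.card := by
    rw [sum_sub_distrib, ← mul_sum, sum_sub_distrib, sum_const, card_univ,
      ZMod.card_units_eq_totient, nsmul_eq_mul, ← sum_filter, sum_const, nsmul_eq_mul,
      filter_mem_eq_inter, univ_inter]
    ring
  rw [h2] at hsum
  linarith

end

end Run7.h850.PC
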