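import Mathlib

set_option autoImplicit false

/-!
The region of the stable weights in rank two with four points, in closed form.
-/

open Finset

namespace Run7.h850.PC

/-- The distance to the nearest integer. -/
noncomputable def nd (x : ℝ) : ℝ := min (Int.fract x) (1 - Int.fract x)

/-- The periodic quadratic function. -/
noncomputable def qf (x : ℝ) : ℝ := Int.fract x * (1 - Int.fract x)

lemma fract_mem (x : ℝ) : 0 ≤ Int.fract x ∧ Int.fract x < 1 :=
  ⟨Int.fract_nonneg x, Int.fract_lt_one x⟩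

lemma nd_add_int (x : ℝ) (n : ℤ) : nd (x + n) = nd x := by
  unfold nd; rw [Int.fract_add_intCast]

lemma qf_add_int (x : ℝ) (n : ℤ) : qf (x + n) = qf x := by
  unfold qf; rw [Int.fract_add_intCast]

lemma nd_neg (x : ℝ) : nd (-x) = nd x := by
  unfold nd
  by_cases h : Int.fract x = 0
  · have h2 : Int.fract (-x) = 0 := Int.fract_neg_eq_zero.2 h
    rw [h, h2]
  · rw [Int.fract_neg h]
    rw [min_comm]
    congr 1
    ring

lemma qf_neg (x : ℝ) : qf (-x) = qf x := by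
  unfold qf
  by_cases h : Int.fract x = 0
  · have h2 : Int.fract (-x) = 0 := Int.fract_neg_eq_zero.2 h
    rw [h, h2]
  · rw [Int.fract_neg h]
    ring

lemma qf_nonneg (x : ℝ) : 0 ≤ qf x := by
  have := fract_mem x
  unfold qf
  exact mul_nonneg this.1 (by linarith)

lemma qf_le (x : ℝ) : qf x ≤ 1 / 4 := by
  unfold qf
  nlinarith [sq_nonneg (Int.fract x - 1 / 2)]

lemma qf_of_mem {x : ℝ} (h0 : 0 ≤ x) (h1 : x ≤ 1) : qf x = x * (1 - x) := by
  rcases h1.lt_or_eq with h | h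
  · unfold qf
    rw [Int.fract_eq_self.2 ⟨h0, h⟩]
  · rw [h]
    unfold qf
    simp

lemma nd_of_mem {x : ℝ} (h0 : 0 ≤ x) (h1 : x ≤ 1) : nd x = min x (1 - x) := by
  rcases h1.lt_or_eq with h | h
  · unfold nd
    rw [Int.fract_eq_self.2 ⟨h0, h⟩]
  · rw [h]
    unfold nd
    simp

lemma qf_of_abs {x : ℝ} (h : |x| ≤ 1) : qf x = |x| * (1 - |x|) := by
  rcases abs_cases x with ⟨h1, h2⟩ | ⟨h1, h2⟩
  · rw [h1] at h ⊢
    exact qf_of_mem h2 h
  · rw [h1] at h ⊢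
    rw [← qf_neg]
    exact qf_of_mem (by linarith) h

/-- The signs. -/
def sg (i : Fin 2) : ℝ := if i = 0 then 1 else -1

/-- The half of a sum with signs. -/
noncomputable def hs (y : Fin 4 → ℝ) (e : ℝ) (κ : Fin 4 → Fin 2) : ℝ :=
  (∑ i, sg (κ i) * y i + e) / 2

/-- The quadratic function of the differences and half sums. -/
noncomputable def KK (y : Fin 4 → ℝ) (e : ℝ) : ℝ :=
  4 * ∑ i, qf (y i) - ∑ κ : Fin 4 → Fin 2, qf (hs y e κ)

/-- The sixteen choices. -/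
def e16 : (Fin 2 × Fin 2 × Fin 2 × Fin 2) ≃ (Fin 4 → Fin 2) where
  toFun p := ![p.1, p.2.1, p.2.2.1, p.2.2.2]
  invFun f := (f 0, f 1, f 2, f 3)
  left_inv p := by rcases p with ⟨a, b, c, d⟩; rfl
  right_inv f := by funext i; fin_cases i <;> rfl

lemma sum16 (F : (Fin 4 → Fin 2) → ℝ) : ∑ κ, F κ =
    (((F ![0, 0, 0, 0] + F ![0, 0, 0, 1]) + (F ![0, 0, 1, 0] + F ![0, 0, 1, 1])) +
      ((F ![0, 1, 0, 0] + F ![0, 1, 0, 1]) + (F ![0, 1, 1, 0] + F ![0, 1, 1, 1]))) +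
    (((F ![1, 0, 0, 0] + F ![1, 0, 0, 1]) + (F ![1, 0, 1, 0] + F ![1, 0, 1, 1])) +
      ((F ![1, 1, 0, 0] + F ![1, 1, 0, 1]) + (F ![1, 1, 1, 0] + F ![1, 1, 1, 1]))) := by
  rw [← Equiv.sum_comp e16]
  simp only [Fintype.sum_prod_type, Fin.sum_univ_two, e16, Equiv.coe_fn_mk]

lemma hs_vec (y : Fin 4 → ℝ) (e : ℝ) (a b c d : Fin 2) :
    hs y e ![a, b, c, d] = (sg a * y 0 + sg b * y 1 + sg c * y 2 + sg d * y 3 + e) / 2 := by
  unfold hs
  simp only [Fin.sum_univ_four]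
  rfl

lemma sg0 : sg 0 = 1 := rfl
lemma sg1 : sg 1 = -1 := rfl

/-- The inequality for points of the cube. -/
lemma core (w : Fin 4 → ℝ) (hw0 : ∀ i, 0 ≤ w i) (hw1 : ∀ i, w i ≤ 1)
    (hst : ∀ n : Fin 4 → ℤ, Odd (∑ i, n i) → 1 < ∑ i, |w i + n i|) (t : ℝ)
    (h1 : ∀ i, t ≤ nd (w i)) (h2 : ∀ κ, t ≤ nd (hs w 0 κ)) : 4 * t ≤ KK w 0 := by
  have key : ∀ n : Fin 4 → ℤ, Odd (∑ i, n i) → (∀ i, n i = 0 ∨ n i = -1) →
      1 < ∑ i, (if n i = 0 then w i else 1 - w i) := by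
    intro n hn h01
    refine (hst n hn).trans_eq (sum_congr rfl fun i _ => ?_)
    rcases h01 i with h | h
    · rw [h]
      simp [abs_of_nonneg (hw0 i)]
    · rw [h]
      simp only [Int.reduceNeg, Int.cast_neg, Int.cast_one, neg_eq_zero, one_ne_zero, if_false]
      rw [abs_of_nonpos (by linarith [hw1 i])]
      ring
  have k0 := key ![-1, 0, 0, 0] (by decide) (by decide)
  have k1 := key ![0, -1, 0, 0] (by decide) (by decide)
  have k2 := key ![0, 0, -1, 0] (by decide) (by decide)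
  have k3 := key ![0, 0, 0, -1] (by decide) (by decide)
  have l0 := key ![0, -1, -1, -1] (by decide) (by decide)
  have l1 := key ![-1, 0, -1, -1] (by decide) (by decide)
  have l2 := key ![-1, -1, 0, -1] (by decide) (by decide)
  have l3 := key ![-1, -1, -1, 0] (by decide) (by decide)
  simp only [Fin.sum_univ_four, Matrix.cons_val_zero, Matrix.cons_val_one, Matrix.cons_val] at k0 k1 k2 k3 l0 l1 l2 l3
  norm_num at k0 k1 k2 k3 l0 l1 l2 l3
  set a := w 0 with ha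
  set b := w 1 with hb
  set c := w 2 with hc
  set d := w 3 with hd
  have a0 := hw0 0
  have b0 := hw0 1
  have c0 := hw0 2
  have d0 := hw0 3
  have a1 := hw1 0
  have b1 := hw1 1
  have c1 := hw1 2
  have d1 := hw1 3
  rw [← ha] at a0 a1
  rw [← hb] at b0 b1
  rw [← hc] at c0 c1
  rw [← hd] at d0 d1
  -- the half sums
  have q1 : ∀ κ x, hs w 0 κ = x → 0 ≤ x → x ≤ 1 → qf (hs w 0 κ) = x * (1 - x) := by
    rintro κ x h3 h4 h5
    rw [h3]
    exact qf_of_mem h4 h5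
  have q2 : ∀ κ x, hs w 0 κ = -x → 0 ≤ x → x ≤ 1 → qf (hs w 0 κ) = x * (1 - x) := by
    rintro κ x h3 h4 h5
    rw [h3, qf_neg]
    exact qf_of_mem h4 h5
  have q3 : ∀ κ x, hs w 0 κ = x → |x| ≤ 1 → qf (hs w 0 κ) = |x| * (1 - |x|) := by
    rintro κ x h3 h4
    rw [h3]
    exact qf_of_abs h4
  have n1 : ∀ κ x, hs w 0 κ = x → 0 ≤ x → x ≤ 1 → t ≤ x ∧ t ≤ 1 - x := by
    rintro κ x h3 h4 h5
    have := h2 κ
    rw [h3, nd_of_mem h4 h5, le_min_iff] at this
    exact this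
  have m1 : ∀ i, t ≤ w i ∧ t ≤ 1 - w i := by
    intro i
    have := h1 i
    rw [nd_of_mem (hw0 i) (hw1 i), le_min_iff] at this
    exact this
  have e0 := m1 0
  have e1 := m1 1
  have e2 := m1 2
  have e3 := m1 3
  rw [← ha] at e0
  rw [← hb] at e1
  rw [← hc] at e2
  rw [← hd] at e3
  have v0111 : hs w 0 ![0, 1, 1, 1] = -((b + c + d - a) / 2) := by
    rw [hs_vec, sg0, sg1]; ring
  have v1011 : hs w 0 ![1, 0, 1, 1] = -((a + c + d - b) / 2) := by
    rw [hs_vec, sg0, sg1]; ring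
  have v1101 : hs w 0 ![1, 1, 0, 1] = -((a + b + d - c) / 2) := by
    rw [hs_vec, sg0, sg1]; ring
  have v1110 : hs w 0 ![1, 1, 1, 0] = -((a + b + c - d) / 2) := by
    rw [hs_vec, sg0, sg1]; ring
  have v1000 : hs w 0 ![1, 0, 0, 0] = (b + c + d - a) / 2 := by
    rw [hs_vec, sg0, sg1]; ring
  have v0100 : hs w 0 ![0, 1, 0, 0] = (a + c + d - b) / 2 := by
    rw [hs_vec, sg0, sg1]; ring
  have v0010 : hs w 0 ![0, 0, 1, 0] = (a + b + d - c) / 2 := by
    rw [hs_vec, sg0, sg1]; ring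
  have v0001 : hs w 0 ![0, 0, 0, 1] = (a + b + c - d) / 2 := by
    rw [hs_vec, sg0, sg1]; ring
  have v0000 : hs w 0 ![0, 0, 0, 0] = (a + b + c + d) / 2 - 1 + ((1 : ℤ) : ℝ) := by
    rw [hs_vec, sg0]; push_cast; ring
  have v1111 : hs w 0 ![1, 1, 1, 1] = -((a + b + c + d) / 2 - 1 + ((1 : ℤ) : ℝ)) := by
    rw [hs_vec, sg1]; push_cast; ring
  have v0011 : hs w 0 ![0, 0, 1, 1] = (a + b - c - d) / 2 := by
    rw [hs_vec, sg0, sg1]; ring
  have v0101 : hs w 0 ![0, 1, 0, 1] = (a - b + c - d) / 2 := by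
    rw [hs_vec, sg0, sg1]; ring
  have v0110 : hs w 0 ![0, 1, 1, 0] = (a - b - c + d) / 2 := by
    rw [hs_vec, sg0, sg1]; ring
  have v1100 : hs w 0 ![1, 1, 0, 0] = -((a + b - c - d) / 2) := by
    rw [hs_vec, sg0, sg1]; ring
  have v1010 : hs w 0 ![1, 0, 1, 0] = -((a - b + c - d) / 2) := by
    rw [hs_vec, sg0, sg1]; ring
  have v1001 : hs w 0 ![1, 0, 0, 1] = -((a - b - c + d) / 2) := by
    rw [hs_vec, sg0, sg1]; ring
  have f0 := n1 _ _ v1000 (by linarith) (by linarith)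
  have f1 := n1 _ _ v0100 (by linarith) (by linarith)
  have f2 := n1 _ _ v0010 (by linarith) (by linarith)
  have f3 := n1 _ _ v0001 (by linarith) (by linarith)
  have g0 := q1 _ _ v1000 (by linarith) (by linarith)
  have g1 := q1 _ _ v0100 (by linarith) (by linarith)
  have g2 := q1 _ _ v0010 (by linarith) (by linarith)
  have g3 := q1 _ _ v0001 (by linarith) (by linarith)
  have g4 := q2 _ _ v0111 (by linarith) (by linarith)
  have g5 := q2 _ _ v1011 (by linarith) (by linarith)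
  have g6 := q2 _ _ v1101 (by linarith) (by linarith)
  have g7 := q2 _ _ v1110 (by linarith) (by linarith)
  have b4 : |(a + b + c + d) / 2 - 1| ≤ 1 := by rw [abs_le]; constructor <;> linarith
  have b5 : |(a + b - c - d) / 2| ≤ 1 := by rw [abs_le]; constructor <;> linarith
  have b6 : |(a - b + c - d) / 2| ≤ 1 := by rw [abs_le]; constructor <;> linarith
  have b7 : |(a - b - c + d) / 2| ≤ 1 := by rw [abs_le]; constructor <;> linarith
  have g8 : qf (hs w 0 ![0, 0, 0, 0]) = |(a + b + c + d) / 2 - 1| * (1 - |(a + b + c + d) / 2 - 1|) := by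
    rw [v0000, qf_add_int]
    exact qf_of_abs b4
  have g9 : qf (hs w 0 ![1, 1, 1, 1]) = |(a + b + c + d) / 2 - 1| * (1 - |(a + b + c + d) / 2 - 1|) := by
    rw [v1111, qf_neg, qf_add_int]
    exact qf_of_abs b4
  have g10 := q3 _ _ v0011 b5
  have g11 := q3 _ _ v0101 b6
  have g12 := q3 _ _ v0110 b7
  have g13 : qf (hs w 0 ![1, 1, 0, 0]) = |(a + b - c - d) / 2| * (1 - |(a + b - c - d) / 2|) := by
    rw [v1100, qf_neg]
    exact qf_of_abs b5
  have g14 : qf (hs w 0 ![1, 0, 1, 0]) = |(a - b + c - d) / 2| * (1 - |(a - b + c - d) / 2|) := by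
    rw [v1010, qf_neg]
    exact qf_of_abs b6
  have g15 : qf (hs w 0 ![1, 0, 0, 1]) = |(a - b - c + d) / 2| * (1 - |(a - b - c + d) / 2|) := by
    rw [v1001, qf_neg]
    exact qf_of_abs b7
  have hK : KK w 0 = 2 - 2 * (|(a + b + c + d) / 2 - 1| + |(a + b - c - d) / 2| +
      |(a - b + c - d) / 2| + |(a - b - c + d) / 2|) := by
    unfold KK
    rw [sum16, g0, g1, g2, g3, g4, g5, g6, g7, g8, g9, g10, g11, g12, g13, g14, g15,
      Fin.sum_univ_four, qf_of_mem (hw0 0) (hw1 0), qf_of_mem (hw0 1) (hw1 1),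
      qf_of_mem (hw0 2) (hw1 2), qf_of_mem (hw0 3) (hw1 3), ← ha, ← hb, ← hc, ← hd]
    have s1 := sq_abs ((a + b + c + d) / 2 - 1)
    have s2 := sq_abs ((a + b - c - d) / 2)
    have s3 := sq_abs ((a - b + c - d) / 2)
    have s4 := sq_abs ((a - b - c + d) / 2)
    generalize |(a + b + c + d) / 2 - 1| = V1 at *
    generalize |(a + b - c - d) / 2| = V2 at *
    generalize |(a - b + c - d) / 2| = V3 at *
    generalize |(a - b - c + d) / 2| = V4 at *
    linear_combination 2 * s1 + 2 * s2 + 2 * s3 + 2 * s4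
  rw [hK]
  rcases abs_cases ((a + b + c + d) / 2 - 1) with ⟨u1, -⟩ | ⟨u1, -⟩ <;>
  rcases abs_cases ((a + b - c - d) / 2) with ⟨u2, -⟩ | ⟨u2, -⟩ <;>
  rcases abs_cases ((a - b + c - d) / 2) with ⟨u3, -⟩ | ⟨u3, -⟩ <;>
  rcases abs_cases ((a - b - c + d) / 2) with ⟨u4, -⟩ | ⟨u4, -⟩ <;>
  rw [u1, u2, u3, u4] <;> linarith [e0.1, e0.2, e1.1, e1.2, e2.1, e2.2, e3.1, e3.2, f0.1, f0.2,
    f1.1, f1.2, f2.1, f2.2, f3.1, f3.2]

end Run7.h850.PC
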