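import Pool.Agent.Run7.h850.PC.Cell

set_option autoImplicit false

/-!
The region of the stable weights in rank two with four points: arbitrary representatives.
-/

open Finset

namespace Run7.h850.PC

/-- The signs as integers. -/
def sz (i : Fin 2) : ℤ := if i = 0 then 1 else -1

lemma sg_eq (i : Fin 2) : sg i = (sz i : ℝ) := by
  unfold sg sz
  split_ifs <;> simp

lemma sg_add (i j : Fin 2) : sg (i + j) = sg i * sg j := by
  fin_cases i <;> fin_cases j <;> simp [sg]

lemma sz_odd (i : Fin 2) (n : ℤ) : Even (sz i * n - n) := by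
  unfold sz
  split_ifs
  · rw [one_mul, sub_self]; exact Even.zero
  · exact ⟨-n, by ring⟩

lemma sz_sq (i : Fin 2) : sz i * sz i = 1 := by
  unfold sz
  split_ifs <;> norm_num

lemma sg_sq (i : Fin 2) : sg i * sg i = 1 := by
  unfold sg
  split_ifs <;> norm_num

lemma abs_sg (i : Fin 2) (x : ℝ) : |sg i * x| = |x| := by
  unfold sg
  split_ifs
  · rw [one_mul]
  · rw [neg_one_mul, abs_neg]

lemma qf_sg (i : Fin 2) (x : ℝ) : qf (sg i * x) = qf x := by
  unfold sg
  split_ifs
  · rw [one_mul]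
  · rw [neg_one_mul, qf_neg]

lemma nd_sg (i : Fin 2) (x : ℝ) : nd (sg i * x) = nd x := by
  unfold sg
  split_ifs
  · rw [one_mul]
  · rw [neg_one_mul, nd_neg]

lemma hs_change {y w : Fin 4 → ℝ} {e : ℤ} {σ : Fin 4 → Fin 2} {m : Fin 4 → ℤ}
    (h : ∀ i, y i = sg (σ i) * w i + m i) (hp : Even (e + ∑ i, m i)) (κ : Fin 4 → Fin 2) :
    ∃ z : ℤ, hs y e κ = hs w 0 (κ + σ) + z := by
  have h1 : Even (∑ i, (sz (κ i) * m i - m i)) := Finset.even_sum _ fun i _ => sz_odd _ _
  rw [sum_sub_distrib] at h1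
  obtain ⟨a, ha⟩ := h1
  obtain ⟨b, hb⟩ := hp
  refine ⟨a + b, ?_⟩
  have h2 : ∑ i, sg (κ i) * y i = ∑ i, sg ((κ + σ) i) * w i + ((∑ i, sz (κ i) * m i : ℤ) : ℝ) := by
    push_cast
    rw [← sum_add_distrib]
    refine sum_congr rfl fun i _ => ?_
    rw [h i, Pi.add_apply, sg_add, sg_eq (κ i)]
    ring
  have h3 : ∑ i, sz (κ i) * m i = a + a + ∑ i, m i := by linarith
  unfold hs
  rw [h2, h3]
  have hb' : (e : ℝ) + ((∑ i, m i : ℤ) : ℝ) = b + b := by exact_mod_cast hb
  push_cast at hb' ⊢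
  linear_combination hb' / 2

lemma KK_change {y w : Fin 4 → ℝ} {e : ℤ} {σ : Fin 4 → Fin 2} {m : Fin 4 → ℤ}
    (h : ∀ i, y i = sg (σ i) * w i + m i) (hp : Even (e + ∑ i, m i)) : KK y e = KK w 0 := by
  unfold KK
  congr 1
  · congr 1
    refine sum_congr rfl fun i _ => ?_
    rw [h i, qf_add_int, qf_sg]
  · rw [← Equiv.sum_comp (Equiv.addRight σ) (fun κ => qf (hs w 0 κ))]
    refine sum_congr rfl fun κ _ => ?_
    obtain ⟨z, hz⟩ := hs_change h hp κ
    rw [hz, qf_add_int]
    rfl

/-- **The inequality.** -/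
theorem cell (y : Fin 4 → ℝ) (e : ℤ)
    (hst : ∀ n : Fin 4 → ℤ, Odd (∑ i, n i + e) → 1 < ∑ i, |y i + n i|) (t : ℝ)
    (h1 : ∀ i, t ≤ nd (y i)) (h2 : ∀ κ, t ≤ nd (hs y e κ)) : 4 * t ≤ KK y e := by
  -- representatives in the cube
  obtain ⟨σ, m, w, h, hp, hw0, hw1⟩ : ∃ (σ : Fin 4 → Fin 2) (m : Fin 4 → ℤ) (w : Fin 4 → ℝ),
      (∀ i, y i = sg (σ i) * w i + m i) ∧ Even (e + ∑ i, m i) ∧ (∀ i, 0 ≤ w i) ∧
      ∀ i, w i ≤ 1 := by
    rcases Int.even_or_odd (e + ∑ i, ⌊y i⌋) with he | ho
    · refine ⟨0, fun i => ⌊y i⌋, fun i => Int.fract (y i), fun i => ?_, he, fun i => ?_,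
        fun i => ?_⟩
      · simp only [Pi.zero_apply, sg0, one_mul]
        exact (Int.fract_add_floor (y i)).symm
      · exact Int.fract_nonneg _
      · exact (Int.fract_lt_one _).le
    · refine ⟨![1, 0, 0, 0], fun i => ⌊y i⌋ + if i = 0 then 1 else 0,
        fun i => if i = 0 then 1 - Int.fract (y i) else Int.fract (y i), fun i => ?_, ?_,
        fun i => ?_, fun i => ?_⟩
      · by_cases hi : i = 0
        · subst hi
          simp only [Matrix.cons_val_zero, sg1, if_true]
          have := Int.fract_add_floor (y 0)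
          push_cast
          linarith
        · have hs : (![1, 0, 0, 0] : Fin 4 → Fin 2) i = 0 := by
            fin_cases i
            · exact absurd rfl hi
            all_goals rfl
          simp only [hs, if_neg hi, sg0, add_zero, one_mul]
          exact (Int.fract_add_floor (y i)).symm
      · rw [sum_add_distrib, Finset.sum_ite_eq' univ (0 : Fin 4), if_pos (mem_univ _), ← add_assoc]
        exact ho.add_one
      · simp only
        split_ifs with hi
        · linarith [Int.fract_lt_one (y i)]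
        · exact Int.fract_nonneg _
      · simp only
        split_ifs with hi
        · linarith [Int.fract_nonneg (y i)]
        · exact (Int.fract_lt_one _).le
  rw [KK_change h hp]
  refine core w hw0 hw1 (fun n hn => ?_) t (fun i => ?_) (fun κ => ?_)
  · have hodd : Odd (∑ i, (sz (σ i) * n i - m i) + e) := by
      have e1 : Even (∑ i, (sz (σ i) * n i - n i)) := Finset.even_sum _ fun i _ => sz_odd _ _
      rw [sum_sub_distrib] at e1 ⊢
      obtain ⟨a, ha⟩ := e1
      obtain ⟨b, hb⟩ := hp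
      obtain ⟨c, hc⟩ := hn
      refine ⟨a + c - ∑ i, m i + b, ?_⟩
      linarith
    refine (hst _ hodd).trans_eq (sum_congr rfl fun i _ => ?_)
    rw [← abs_sg (σ i)]
    congr 1
    rw [h i]
    push_cast
    rw [← sg_eq]
    linear_combination (w i + n i) * sg_sq (σ i)
  · have := h1 i
    rwa [h i, nd_add_int, nd_sg] at this
  · have := h2 (κ - σ)
    obtain ⟨z, hz⟩ := hs_change h hp (κ - σ)
    rwa [hz, nd_add_int, sub_add_cancel] at this

/-- The tent function of height `t`. -/
noncomputable def tent (t x : ℝ) : ℝ := max 0 (t - nd x)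

lemma tent_nonneg (t x : ℝ) : 0 ≤ tent t x := le_max_left _ _

lemma le_tent (t x : ℝ) : t - nd x ≤ tent t x := le_max_right _ _

lemma tent_add_int (t x : ℝ) (n : ℤ) : tent t (x + n) = tent t x := by
  unfold tent; rw [nd_add_int]

lemma tent_neg (t x : ℝ) : tent t (-x) = tent t x := by
  unfold tent; rw [nd_neg]

/-- The inequality with tents. -/
theorem cell_tent (y : Fin 4 → ℝ) (e : ℤ)
    (hst : ∀ n : Fin 4 → ℤ, Odd (∑ i, n i + e) → 1 < ∑ i, |y i + n i|) (t : ℝ) :
    4 * (t - ∑ i, tent t (y i) - (∑ κ, tent t (hs y e κ)) / 2) ≤ KK y e := by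
  classical
  have hA : 0 ≤ ∑ i, tent t (y i) := sum_nonneg fun i _ => tent_nonneg _ _
  have hB : 0 ≤ ∑ κ, tent t (hs y e κ) := sum_nonneg fun i _ => tent_nonneg _ _
  refine cell y e hst _ (fun i => ?_) (fun κ => ?_)
  · have h1 : tent t (y i) ≤ ∑ i, tent t (y i) :=
      single_le_sum (f := fun i => tent t (y i)) (fun i _ => tent_nonneg _ _) (mem_univ i)
    have h2 := le_tent t (y i)
    linarith
  · have h2 := le_tent t (hs y e κ)
    have hne : κ ≠ κ + 1 := by
      intro h
      have h3 := congrFun h 0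
      simp only [Pi.add_apply, Pi.one_apply] at h3
      revert h3
      generalize κ 0 = k
      revert k
      decide
    have h3 : tent t (hs y e (κ + 1)) = tent t (hs y e κ) := by
      have h4 : hs y e (κ + 1) = -hs y e κ + (e : ℤ) := by
        have h5 : ∑ i, sg ((κ + 1) i) * y i = -∑ i, sg (κ i) * y i := by
          rw [← sum_neg_distrib]
          refine sum_congr rfl fun i _ => ?_
          rw [Pi.add_apply, sg_add, Pi.one_apply, sg1]
          ring
        unfold hs
        rw [h5]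
        ring
      rw [h4, tent_add_int, tent_neg]
    have h1 : tent t (hs y e κ) + tent t (hs y e (κ + 1)) ≤ ∑ κ, tent t (hs y e κ) := by
      rw [← sum_pair (f := fun κ => tent t (hs y e κ)) hne]
      exact sum_le_sum_of_subset_of_nonneg (subset_univ _) fun _ _ _ => tent_nonneg _ _
    linarith

lemma KK_ge (y : Fin 4 → ℝ) (e : ℝ) : -4 ≤ KK y e := by
  unfold KK
  have h1 : 0 ≤ ∑ i, qf (y i) := sum_nonneg fun i _ => qf_nonneg _
  have h2 : ∑ κ, qf (hs y e κ) ≤ ∑ κ : Fin 4 → Fin 2, (1 / 4 : ℝ) := sum_le_sum fun κ _ => qf_le _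
  rw [sum_const, card_univ, Fintype.card_fun, Fintype.card_fin, Fintype.card_fin, nsmul_eq_mul] at h2
  norm_num at h2
  linarith

end Run7.h850.PC
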