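import Pool.Agent.Run7.h850.PC.Weights

set_option autoImplicit false

/-!
Cases where the excess is small.
-/

open Finset

namespace Run7.h850.PC

open Pool.Agent.TH571.PCV

lemma gam_abs (q : ℚ) : |gam q| ≤ 1 / (q.den : ℚ) := by
  have hd : (0 : ℚ) < q.den := by exact_mod_cast q.den_pos
  have h1 : |∏ p ∈ q.den.primeFactors, (-(p : ℚ))| ≤ q.den := by
    rw [abs_prod]
    have h2 : ∏ p ∈ q.den.primeFactors, |(-(p : ℚ))| = ((∏ p ∈ q.den.primeFactors, p : ℕ) : ℚ) := by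
      push_cast
      refine prod_congr rfl fun p _ => ?_
      rw [abs_neg, abs_of_nonneg (by positivity)]
    rw [h2]
    exact_mod_cast Nat.le_of_dvd q.den_pos (Nat.prod_primeFactors_dvd _)
  unfold gam
  rw [abs_div, abs_of_pos (pow_pos hd 2), div_le_div_iff₀ (pow_pos hd 2) hd, one_mul, sq]
  exact mul_le_mul_of_nonneg_right h1 hd.le

lemma gam_le {q : ℚ} {M : ℕ} (hM : 0 < M) (h : M ≤ q.den) : |gam q| ≤ 1 / (M : ℚ) := by
  refine (gam_abs q).trans ?_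
  have h1 : (0 : ℚ) < M := by exact_mod_cast hM
  exact one_div_le_one_div_of_le h1 (by exact_mod_cast h)

/-- Bounds for the sums give a bound for the excess. -/
lemma excess_le {θ : Fin 4 → ℚ} {s : (Fin 4 → Fin 2) → ℚ} {A B : ℚ} (hs : ∀ κ, gam (s κ) ≤ A)
    (hθ : ∀ i, -gam (θ i) ≤ B) : excess θ s ≤ 16 * A + 16 * B := by
  have h1 : ∑ κ, gam (s κ) ≤ ∑ _κ : Fin 4 → Fin 2, A := sum_le_sum fun κ _ => hs κ
  have h2 : ∑ i, -gam (θ i) ≤ ∑ _i : Fin 4, B := sum_le_sum fun i _ => hθ i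
  have h6 : ((Fintype.card (Fin 4 → Fin 2) : ℕ) : ℚ) = 16 := by simp
  rw [sum_const, card_univ, nsmul_eq_mul, h6] at h1
  rw [sum_const, card_univ, nsmul_eq_mul, Fintype.card_fin, sum_neg_distrib] at h2
  push_cast at h2
  unfold excess
  linarith

/-- All denominators are at least `121`. -/
lemma excess_large {θ : Fin 4 → ℚ} {s : (Fin 4 → Fin 2) → ℚ} (hs : ∀ κ, 121 ≤ (s κ).den)
    (hθ : ∀ i, 121 ≤ (θ i).den) : excess θ s < 4 / 15 := by
  have h1 := excess_le (θ := θ) (s := s) (A := 1 / 121) (B := 1 / 121)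
    (fun κ => (le_abs_self _).trans (by exact_mod_cast gam_le (by norm_num) (hs κ)))
    (fun i => (neg_le_abs _).trans (by exact_mod_cast gam_le (by norm_num) (hθ i)))
  norm_num at h1
  linarith

lemma chk1 : ∀ d ∈ List.range 77, (d ≠ 0 ∧ d ≠ 1 ∧ ¬ 2 ∣ d ∧ ¬ 3 ∣ d ∧ ¬ 5 ∣ d) →
    ∏ p ∈ d.primeFactors, (-(p : ℤ)) ≤ 0 := by
  decide +kernel

lemma chk2 : ∀ d ∈ List.range 277, (d ≠ 0 ∧ d ≠ 1 ∧ ¬ 2 ∣ d ∧ ¬ 3 ∣ d ∧ ¬ 5 ∣ d ∧ ¬ d.minFac = d) →
    -277 * ∏ p ∈ d.primeFactors, (-(p : ℤ)) ≤ (d : ℤ) ^ 2 := by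
  decide +kernel

/-- No prime factors below `7`. -/
def Rough7 (q : ℚ) : Prop := ∀ p : ℕ, p.Prime → p ∣ q.den → 7 ≤ p

lemma Rough7.not {q : ℚ} (h : Rough7 q) : ¬ 2 ∣ q.den ∧ ¬ 3 ∣ q.den ∧ ¬ 5 ∣ q.den := by
  refine ⟨fun h2 => ?_, fun h2 => ?_, fun h2 => ?_⟩
  · have := h 2 Nat.prime_two h2
    omega
  · have := h 3 Nat.prime_three h2
    omega
  · have := h 5 Nat.prime_five h2
    omega

lemma gam_rough {q : ℚ} (h : Rough7 q) (h1 : q.den ≠ 1) : gam q ≤ 1 / 77 := by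
  rcases Nat.lt_or_ge q.den 77 with hlt | hge
  · obtain ⟨h2, h3, h5⟩ := h.not
    have h7 := chk1 q.den (List.mem_range.2 hlt) ⟨q.den_pos.ne', h1, h2, h3, h5⟩
    have h8 : ∏ p ∈ q.den.primeFactors, (-(p : ℚ)) ≤ 0 := by exact_mod_cast h7
    unfold gam
    refine (div_nonpos_of_nonpos_of_nonneg h8 (by positivity)).trans (by norm_num)
  · exact (le_abs_self _).trans (by exact_mod_cast gam_le (M := 77) (by norm_num) hge)

lemma gam_rough' {q : ℚ} (h : Rough7 q) (h1 : q.den ≠ 1) (hp : q.den.Prime → 277 ≤ q.den) :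
    -gam q ≤ 1 / 277 := by
  rcases Nat.lt_or_ge q.den 277 with hlt | hge
  · obtain ⟨h2, h3, h5⟩ := h.not
    have h7 := chk2 q.den (List.mem_range.2 hlt) ⟨q.den_pos.ne', h1, h2, h3, h5, fun h8 => by
      have h9 : q.den.Prime := by
        rw [← h8]
        exact Nat.minFac_prime h1
      have := hp h9
      omega⟩
    have h8 : -277 * ∏ p ∈ q.den.primeFactors, (-(p : ℚ)) ≤ (q.den : ℚ) ^ 2 := by exact_mod_cast h7
    have hd : (0 : ℚ) < (q.den : ℚ) ^ 2 := by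
      have : (0 : ℚ) < q.den := by exact_mod_cast q.den_pos
      positivity
    unfold gam
    rw [← neg_div, div_le_div_iff₀ hd (by norm_num)]
    linarith
  · exact (neg_le_abs _).trans (by exact_mod_cast gam_le (M := 277) (by norm_num) hge)

lemma excess_rough {θ : Fin 4 → ℚ} {s : (Fin 4 → Fin 2) → ℚ} (hs : ∀ κ, Rough7 (s κ))
    (hs1 : ∀ κ, (s κ).den ≠ 1) (hθ : ∀ i, Rough7 (θ i)) (hθ1 : ∀ i, (θ i).den ≠ 1)
    (hθp : ∀ i, (θ i).den.Prime → 277 ≤ (θ i).den) : excess θ s < 4 / 15 := by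
  have h1 := excess_le (θ := θ) (s := s) (A := 1 / 77) (B := 1 / 277)
    (fun κ => gam_rough (hs κ) (hs1 κ)) (fun i => gam_rough' (hθ i) (hθ1 i) (hθp i))
  norm_num at h1
  linarith

end Run7.h850.PC
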