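import Pool.Agent.Run7.h850.PC.Tent

set_option autoImplicit false

/-!
The mean of the tent function of height `1 / 36` over the primitive fractions with a given
denominator is at most `1 / 720`.
-/

open Finset

namespace Run7.h850.PC

/-- The divisor `r` of `d` can be used. -/
def Good (d r : ℕ) : Prop := 0 < r ∧ r ∣ d ∧ 5 * (d / r).totient * (r ^ 2 + 324) ≤ 9 * r * d.totient

instance (d r : ℕ) : Decidable (Good d r) := by unfold Good; infer_instance

lemma US_of_good {d r : ℕ} (hd : 0 < d) (h : Good d r) : 720 * US (1 / 36) d ≤ d.totient := by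
  obtain ⟨hr, ⟨D, rfl⟩, h3⟩ := h
  rw [Nat.mul_div_cancel_left _ hr] at h3
  have hD : 0 < D := Nat.pos_of_mul_pos_left hd
  rw [mul_comm r D] at h3 ⊢
  have h4 := US_le (t := 1 / 36) (by norm_num) (by norm_num) hD hr
  have hr0 : (0 : ℝ) < r := by exact_mod_cast hr
  have h5 : (5 : ℝ) * D.totient * (r ^ 2 + 324) ≤ 9 * r * (D * r).totient := by exact_mod_cast h3
  have h6 : 720 * (D.totient * ((r : ℝ) * (1 / 36) ^ 2 + 1 / (4 * r))) =
      (5 * D.totient * (r ^ 2 + 324)) / (9 * r) := by
    field_simp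
    ring
  have h7 : (5 * (D.totient : ℝ) * (r ^ 2 + 324)) / (9 * r) ≤ (D * r).totient := by
    rw [div_le_iff₀ (by positivity)]
    linarith
  linarith

lemma prod_le_of_subset {A B : Finset ℕ} {f : ℕ → ℚ} (hAB : A ⊆ B) (h0 : ∀ p, 0 ≤ f p)
    (h1 : ∀ p, f p ≤ 1) : ∏ p ∈ B, f p ≤ ∏ p ∈ A, f p := by
  rw [← prod_sdiff hAB]
  have h2 : ∏ p ∈ B \ A, f p ≤ 1 := prod_le_one (fun _ _ => h0 _) fun _ _ => h1 _
  have h3 : 0 ≤ ∏ p ∈ A, f p := prod_nonneg fun _ _ => h0 _
  calc _ ≤ 1 * ∏ p ∈ A, f p := mul_le_mul_of_nonneg_right h2 h3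
    _ = _ := one_mul _

lemma tot_ineq {a k r : ℕ} (ha : 0 < a) (hk : 0 < k) (hr : 0 < r) :
    (a * k).totient * (r * a).totient ≤ (r * a * k).totient * a.totient := by
  classical
  set f : ℕ → ℚ := fun p => if p = 0 then 0 else 1 - (p : ℚ)⁻¹ with hf
  have h0 : ∀ p, 0 ≤ f p := by
    intro p
    simp only [hf]
    split_ifs with h
    · exact le_rfl
    · have : (1 : ℚ) ≤ p := by exact_mod_cast Nat.pos_of_ne_zero h
      have := inv_le_one_of_one_le₀ this
      linarith
  have h1 : ∀ p, f p ≤ 1 := by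
    intro p
    simp only [hf]
    split_ifs with h
    · exact zero_le_one
    · have : (0 : ℚ) ≤ (p : ℚ)⁻¹ := by positivity
      linarith
  have hφ : ∀ n : ℕ, (n.totient : ℚ) = n * ∏ p ∈ n.primeFactors, f p := by
    intro n
    rw [Nat.totient_eq_mul_prod_factors]
    congr 1
    refine prod_congr rfl fun p hp => ?_
    simp only [hf, if_neg (Nat.prime_of_mem_primeFactors hp).ne_zero]
  have hcast : (((a * k).totient * (r * a).totient : ℕ) : ℚ) ≤
      (((r * a * k).totient * a.totient : ℕ) : ℚ) := by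
    push_cast
    rw [hφ, hφ, hφ, hφ, Nat.primeFactors_mul (mul_pos hr ha).ne' hk.ne',
      Nat.primeFactors_mul ha.ne' hk.ne', Nat.primeFactors_mul hr.ne' ha.ne']
    set A := a.primeFactors
    set K := k.primeFactors
    set R := r.primeFactors
    have h2 : (∏ p ∈ A ∪ K, f p) * ∏ p ∈ R ∪ A, f p ≤
        (∏ p ∈ R ∪ A ∪ K, f p) * ∏ p ∈ A, f p := by
      have h3 := prod_union_inter (s₁ := A ∪ K) (s₂ := R ∪ A) (f := f)
      have h4 : A ∪ K ∪ (R ∪ A) = R ∪ A ∪ K := by
        ext p; simp only [mem_union]; tauto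
      rw [h4] at h3
      rw [← h3]
      refine mul_le_mul_of_nonneg_left ?_ (prod_nonneg fun _ _ => h0 _)
      refine prod_le_of_subset (fun p hp => ?_) h0 h1
      simp only [mem_inter, mem_union]
      exact ⟨Or.inl hp, Or.inr hp⟩
    have h5 : (0 : ℚ) ≤ (a : ℚ) * k * (r * a) := by positivity
    have h6 := mul_le_mul_of_nonneg_left h2 h5
    push_cast
    linear_combination h6
  exact_mod_cast hcast

/-- Multiples. -/
lemma Good.mul {d r : ℕ} (h : Good d r) (hd : 0 < d) {n : ℕ} (hn : 0 < n) (hdn : d ∣ n) :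
    Good n r := by
  obtain ⟨hr, ⟨a, rfl⟩, h3⟩ := h
  obtain ⟨k, rfl⟩ := hdn
  have ha : 0 < a := Nat.pos_of_mul_pos_left hd
  have hk : 0 < k := Nat.pos_of_mul_pos_left hn
  refine ⟨hr, ⟨a * k, by ring⟩, ?_⟩
  rw [Nat.mul_div_cancel_left _ hr] at h3
  rw [mul_assoc r a k, Nat.mul_div_cancel_left _ hr, ← mul_assoc r a k]
  have h4 := tot_ineq ha hk hr
  have h5 : 0 < a.totient := Nat.totient_pos.2 ha
  refine Nat.le_of_mul_le_mul_right (c := a.totient) ?_ h5
  calc 5 * (a * k).totient * (r ^ 2 + 324) * a.totient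
      = (a * k).totient * (5 * a.totient * (r ^ 2 + 324)) := by ring
    _ ≤ (a * k).totient * (9 * r * (r * a).totient) := Nat.mul_le_mul_left _ h3
    _ = 9 * r * ((a * k).totient * (r * a).totient) := by ring
    _ ≤ 9 * r * ((r * a * k).totient * a.totient) := Nat.mul_le_mul_left _ h4
    _ = 9 * r * (r * a * k).totient * a.totient := by ring

lemma good_prime {p : ℕ} (hp : p.Prime) (h : 23 ≤ p) : Good p p := by
  refine ⟨hp.pos, dvd_rfl, ?_⟩
  rw [Nat.div_self hp.pos, Nat.totient_one, Nat.totient_prime hp]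
  obtain ⟨k, rfl⟩ : ∃ k, p = k + 23 := ⟨p - 23, by omega⟩
  have : k + 23 - 1 = k + 22 := by omega
  rw [this]
  nlinarith

/-- The smooth numbers that can be used. -/
def LG : List (ℕ × ℕ) :=
  [(49, 49), (51, 51), (52, 26), (55, 55), (56, 28), (57, 57), (64, 32), (65, 65), (68, 34), (76, 38),
   (77, 77), (80, 40), (81, 27), (85, 85), (88, 44), (91, 91), (95, 95), (96, 48), (99, 33),
   (100, 50), (108, 54), (117, 39), (119, 119), (121, 121), (125, 125), (132, 66), (133, 133),
   (135, 45), (140, 70), (143, 143), (144, 24), (169, 169), (175, 175), (180, 30), (187, 187),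
   (189, 63), (209, 209), (221, 221), (225, 75), (247, 247), (252, 42), (289, 289), (315, 105),
   (323, 323), (361, 361)]

lemma LG_good : ∀ q ∈ LG, Good q.1 q.2 ∧ 0 < q.1 := by
  decide +kernel

/-- The product of the primes below `23`. -/
def M19 : ℕ := 9699690

/-- The property to be checked. -/
def Chk (n : ℕ) : Prop := (∃ q ∈ LG, q.1 ∣ n) ∨
    (n / Nat.gcd n (M19 ^ 11) ≠ 1 ∧ Nat.Coprime (n / Nat.gcd n (M19 ^ 11)) M19)

instance (n : ℕ) : Decidable (Chk n) := by unfold Chk; infer_instance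

lemma check0 : ∀ a < 60, ∀ b < 63, Chk (63 * a + b + 211) := by
  decide +kernel

lemma check {d : ℕ} (h1 : 210 < d) (h2 : d < 3991) : Chk d := by
  have h3 := Nat.div_add_mod (d - 211) 63
  have h4 := Nat.mod_lt (d - 211) (by norm_num : 63 > 0)
  have h5 := check0 ((d - 211) / 63) (by omega) ((d - 211) % 63) h4
  rwa [h3, show d - 211 + 211 = d by omega] at h5

lemma prime_lt_23 {p : ℕ} (hp : p.Prime) (h : p < 23) : p ∣ M19 := by
  unfold M19
  interval_cases p <;> revert hp <;> decide +kernel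

/-- Every number larger than `210` has a divisor that can be used. -/
theorem exists_good : ∀ d : ℕ, 210 < d → ∃ r, Good d r := by
  intro d hd
  by_cases hp : ∃ p, p.Prime ∧ p ∣ d ∧ 23 ≤ p
  · obtain ⟨p, hp, hpd, h⟩ := hp
    exact ⟨p, (good_prime hp h).mul hp.pos (by omega) hpd⟩
  push Not at hp
  suffices hL : ∀ d : ℕ, 210 < d → (∀ p, p.Prime → p ∣ d → p < 23) → ∃ q ∈ LG, q.1 ∣ d by
    obtain ⟨q, hq, hqd⟩ := hL d hd hp
    obtain ⟨h1, h2⟩ := LG_good q hq
    exact ⟨q.2, h1.mul h2 (by omega) hqd⟩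
  clear hp hd d
  intro d
  induction d using Nat.strong_induction_on with
  | _ d ih =>
    intro hd hsm
    rcases Nat.lt_or_ge d 3991 with hlt | hge
    · rcases check hd hlt with h | ⟨h1, h2⟩
      · exact h
      · exfalso
        set e := d / Nat.gcd d (M19 ^ 11) with he
        have hp := Nat.minFac_prime h1
        have hpe : e.minFac ∣ e := Nat.minFac_dvd e
        have hed : e ∣ d := Nat.div_dvd_of_dvd (Nat.gcd_dvd_left _ _)
        have h3 := prime_lt_23 hp (hsm _ hp (hpe.trans hed))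
        have h4 : e.minFac ∣ 1 := by
          rw [← h2]
          exact Nat.dvd_gcd hpe h3
        exact hp.one_lt.ne' (Nat.dvd_one.1 h4)
    · have hp := Nat.minFac_prime (n := d) (by omega)
      have hpd := Nat.minFac_dvd d
      have h19 := hsm _ hp hpd
      obtain ⟨k, hk⟩ := hpd
      have hk1 : 210 < k := by
        by_contra h
        push Not at h
        have : d ≤ 22 * 210 := by
          rw [hk]
          exact Nat.mul_le_mul (by omega) h
        have h20 : d.minFac ≤ 19 := by
          by_contra h20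
          push Not at h20
          have h21 : d.minFac = 20 ∨ d.minFac = 21 ∨ d.minFac = 22 := by omega
          rcases h21 with h | h | h <;> rw [h] at hp <;> revert hp <;> decide +kernel
        have : d ≤ 19 * 210 := by
          rw [hk]
          exact Nat.mul_le_mul h20 h
        omega
      obtain ⟨q, hq, hqk⟩ := ih k (by
        rw [hk]
        have h2 := hp.two_le
        nlinarith) hk1 (fun p hp' hpk => hsm p hp' (hpk.trans ⟨d.minFac, by rw [mul_comm]; exact hk⟩))
      exact ⟨q, hq, hqk.trans ⟨d.minFac, by rw [mul_comm]; exact hk⟩⟩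

/-- The value of the tent function of height `1 / 36` in integers. -/
lemma tent_int {d x : ℕ} (hd : 0 < d) (hx : x ≤ d) :
    36 * d * tent (1 / 36) ((x : ℝ) / d) = ((d - 36 * min x (d - x) : ℕ) : ℝ) := by
  have hd0 : (0 : ℝ) < d := by exact_mod_cast hd
  have hx' : (x : ℝ) ≤ d := by exact_mod_cast hx
  unfold tent
  rw [nd_of_mem (by positivity) (by rw [div_le_one hd0]; exact hx')]
  have h1 : min ((x : ℝ) / d) (1 - x / d) = ((min x (d - x) : ℕ) : ℝ) / d := by
    have h2 : (1 : ℝ) - x / d = ((d : ℝ) - x) / d := by field_simp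
    rw [Nat.cast_min, Nat.cast_sub hx, h2, min_div_div_right hd0.le]
  rw [h1]
  generalize min x (d - x) = y
  rcases le_or_gt (36 * y) d with h | h
  · have h2 : (36 * y : ℝ) ≤ d := by exact_mod_cast h
    rw [Nat.cast_sub h, max_eq_right]
    · push_cast
      field_simp
    · rw [sub_nonneg, div_le_div_iff₀ hd0 (by norm_num)]
      linarith
  · have h2 : (d : ℝ) < 36 * y := by exact_mod_cast h
    rw [Nat.sub_eq_zero_of_le h.le, max_eq_left]
    · simp
    · rw [sub_nonpos, div_le_div_iff₀ (by norm_num) hd0]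
      linarith

lemma small_check : ∀ n < 209, 20 * ∑ x ∈ (range (n + 2)).filter (fun x => (n + 2).Coprime x),
    ((n + 2) - 36 * min x ((n + 2) - x)) ≤ (n + 2) * (n + 2).totient := by
  decide +kernel

/-- **The mean of the tent function.** -/
theorem US_bound {d : ℕ} (hd : 2 ≤ d) : 720 * US (1 / 36) d ≤ d.totient := by
  rcases Nat.lt_or_ge 210 d with h | h
  · obtain ⟨r, hr⟩ := exists_good d h
    exact US_of_good (by omega) hr
  · have h1 := small_check (d - 2) (by omega)
    rw [show d - 2 + 2 = d by omega] at h1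
    have hd0 : (0 : ℝ) < d := by exact_mod_cast (by omega : 0 < d)
    have h2 : 36 * d * US (1 / 36) d = ((∑ x ∈ (range d).filter (fun x => d.Coprime x),
        (d - 36 * min x (d - x)) : ℕ) : ℝ) := by
      unfold US
      rw [mul_sum, Nat.cast_sum]
      refine sum_congr rfl fun x hx => ?_
      exact tent_int (by omega) (mem_range.1 (mem_filter.1 hx).1).le
    have h3 : (20 : ℝ) * ((∑ x ∈ (range d).filter (fun x => d.Coprime x),
        (d - 36 * min x (d - x)) : ℕ) : ℝ) ≤ d * d.totient := by exact_mod_cast h1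
    rw [← h2] at h3
    have h4 : d * (720 * US (1 / 36) d) ≤ d * d.totient := by linarith
    exact le_of_mul_le_mul_left h4 hd0

end Run7.h850.PC
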