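import Pool.Agent.Run7.h850.PC.Cor
import Pool.Agent.Y227.SO.Uniform
import Pool.Agent.Y227.SO.Dens

set_option autoImplicit false

/-!
Operators of order two with four points with non-integral differences of exponents.
-/

open Finset

namespace Run7.h850.PC

open Polynomial Pool.Agent.TH571.PCV Pool.Agent.Y227.SS Pool.Agent.R340.SY
open Pool.Agent.W432.WB Pool.Agent.W432.HK Pool.Agent.Y227.SO

/-- The sum of `gam` over the sixteen sums of exponents minus four times the sum over the four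
differences. -/
def exc {m : ℕ} (lam : Fin m → Fin 2 → ℚ) (phi : Fin 2 → ℚ) (P : Fin 4 → Option (Fin m)) : ℚ :=
  excess (fun i => diff lam phi (P i)) (total lam phi P)

/-- The Fuchs relation in order two. -/
lemma fuchs2 {m : ℕ} {lam : Fin m → Fin 2 → ℚ} {phi : Fin 2 → ℚ} {b : Fin 3 → ℤ[X]}
    {α : Fin m → AlgebraicClosure ℚ} (hm : 1 ≤ m) (hF : FuchsianWith b α lam phi) :
    ∑ j, (lam j 0 + lam j 1) = phi 0 + phi 1 + ((m : ℤ) - 1 : ℤ) := by
  obtain ⟨-, Q, hFu, hE⟩ := hF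
  have h := fuchs (n := 2) (by norm_num) (by omega) hFu.inj hFu.last hFu.deg hE.1 hE.2
  simp only [Fin.sum_univ_two, cw, Fin.val_zero, Fin.val_one] at h
  have h1 : ((m - 1 : ℕ) : ℚ) = (m : ℚ) - 1 := by
    rw [Nat.cast_sub hm]; norm_num
  push_cast at h ⊢
  norm_num at h
  rw [h1] at h
  linarith

section

variable {m : ℕ} {b : Fin 3 → ℤ[X]} {α : Fin m → AlgebraicClosure ℚ} {lam : Fin m → Fin 2 → ℚ}
  {phi : Fin 2 → ℚ} {P : Fin 4 → Option (Fin m)}

/-- The proportion of the bad classes. -/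
theorem op_bad (hm : 1 ≤ m) (hF : FuchsianWith b α lam phi) (hirr : ¬ Reducible b)
    (hP : Function.Injective P) (hint : ∀ x ∈ rest P, (diff lam phi x).den = 1)
    (hθ : ∀ i, (diff lam phi (P i)).den ≠ 1) (hs : ∀ κ, (total lam phi P κ).den ≠ 1) {N : ℕ}
    (hN : CommonDen lam phi N) : BadPrimes b N (3 / 74 * (4 / 15 - ((exc lam phi P : ℚ) : ℝ))) := by
  classical
  have : NeZero N := ⟨hN.1.ne'⟩
  refine collect b N hN.1 _ _ (weights_avg hP (fuchs2 hm hF) hN.2.1 hN.2.2 hint hθ hs)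
    fun u hu => ⟨(((u : ZMod N).val : ℕ) : ℤ), rep_unit u, ?_⟩
  exact bad_class (by omega) (by norm_num) hF hN _ (Or.inr ⟨hirr, (mem_filter.1 hu).2⟩)

/-- A bad class. -/
theorem op_class (hm : 1 ≤ m) (hF : FuchsianWith b α lam phi) (hirr : ¬ Reducible b)
    (hP : Function.Injective P) (hint : ∀ x ∈ rest P, (diff lam phi x).den = 1)
    (hθ : ∀ i, (diff lam phi (P i)).den ≠ 1) (hs : ∀ κ, (total lam phi P κ).den ≠ 1)
    (hE : exc lam phi P < 4 / 15) {N : ℕ} (hN : CommonDen lam phi N) :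
    Pool.Agent.W432.HK.BadClass b N := by
  classical
  have : NeZero N := ⟨hN.1.ne'⟩
  have hφ : (0 : ℝ) < N.totient := by exact_mod_cast Nat.totient_pos.2 hN.1
  have hE' : ((exc lam phi P : ℚ) : ℝ) < 4 / 15 := by
    have : ((exc lam phi P : ℚ) : ℝ) < ((4 / 15 : ℚ) : ℝ) := by exact_mod_cast hE
    norm_num at this
    exact this
  have h1 := weights_avg hP (fuchs2 hm hF) hN.2.1 hN.2.2 hint hθ hs
  have h2 : (0 : ℝ) < 3 / 74 * (4 / 15 - ((excess (fun i => diff lam phi (P i))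
      (total lam phi P) : ℚ) : ℝ)) * N.totient := by
    have : (0 : ℝ) < 4 / 15 - ((exc lam phi P : ℚ) : ℝ) := by linarith
    unfold exc at this
    positivity
  have h3 : (0 : ℝ) < (univ.filter fun u : (ZMod N)ˣ => ¬ StableWeights ℂ
        (fun j l => ((((u : ZMod N).val : ℤ)) : ℝ) * lam j l)
        (fun l => ((((u : ZMod N).val : ℤ)) : ℝ) * phi l)).card := h2.trans_le h1
  have h4 : 0 < (univ.filter fun u : (ZMod N)ˣ => ¬ StableWeights ℂ
        (fun j l => ((((u : ZMod N).val : ℤ)) : ℝ) * lam j l)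
        (fun l => ((((u : ZMod N).val : ℤ)) : ℝ) * phi l)).card := by exact_mod_cast h3
  obtain ⟨u, hu⟩ := card_pos.1 h4
  refine ⟨(((u : ZMod N).val : ℕ) : ℤ), Nat.isCoprime_iff_coprime.2 (ZMod.val_coe_unit_coprime u), ?_⟩
  exact bad_class (by omega) (by norm_num) hF hN _ (Or.inr ⟨hirr, (mem_filter.1 hu).2⟩)

end

end Run7.h850.PC
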