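import Pool.Agent.Run7.h850.PC.Cell2

set_option autoImplicit false

/-!
Sums of tent functions over arithmetic progressions.
-/

open Finset

namespace Run7.h850.PC

lemma qf_fract (s u : ℝ) : qf (s + u) = qf (Int.fract s + u) := by
  have h : s + u = Int.fract s + u + (⌊s⌋ : ℤ) := by
    have := Int.fract_add_floor s
    linarith
  rw [h, qf_add_int]

lemma tent_fract (t s : ℝ) : tent t s = tent t (Int.fract s) := by
  have h : s = Int.fract s + (⌊s⌋ : ℤ) := (Int.fract_add_floor s).symm
  conv_lhs => rw [h]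
  rw [tent_add_int]

/-- The tent function in terms of the quadratic function. -/
lemma tent_formula {t : ℝ} (ht0 : 0 ≤ t) (ht : t ≤ 1 / 2) (s : ℝ) :
    tent t s = t ^ 2 - qf s + (qf (s + t) + qf (s + -t)) / 2 := by
  have h0 : qf s = qf (Int.fract s) := by
    have := qf_fract s 0
    rwa [add_zero, add_zero] at this
  rw [tent_fract, qf_fract s t, qf_fract s (-t), h0]
  obtain ⟨hx0, hx1⟩ := fract_mem s
  generalize Int.fract s = x at *
  rw [qf_of_mem hx0 hx1.le]
  unfold tent
  rw [nd_of_mem hx0 hx1.le]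
  rcases lt_or_ge x t with h | h
  · rw [min_eq_left (by linarith), max_eq_right (by linarith), qf_of_mem (by linarith) (by linarith),
      ← qf_neg (x + -t), qf_of_mem (x := -(x + -t)) (by linarith) (by linarith)]
    ring
  · rcases le_or_gt x (1 - t) with h2 | h2
    · rw [max_eq_left, qf_of_mem (by linarith) (by linarith), qf_of_mem (x := x + -t)
        (by linarith) (by linarith)]
      · ring
      · rw [sub_nonpos, le_min_iff]
        constructor <;> linarith
    · have h3 : x + t = (x + t - 1) + ((1 : ℤ) : ℝ) := by push_cast; ring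
      rw [min_eq_right (by linarith), max_eq_right (by linarith), h3, qf_add_int,
        qf_of_mem (x := x + t - 1) (by linarith) (by linarith),
        qf_of_mem (x := x + -t) (by linarith) (by linarith)]
      ring

lemma poly_sum (φ ρ : ℝ) (n : ℕ) : ∑ j ∈ range n, (φ + j) * ρ * (1 - (φ + j) * ρ) =
    ρ * (n * φ + n * (n - 1) / 2) -
      ρ ^ 2 * (n * φ ^ 2 + φ * (n * (n - 1)) + n * (n - 1) * (2 * n - 1) / 6) := by
  induction n with
  | zero => simp
  | succ n ih =>
    rw [sum_range_succ, ih]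
    push_cast
    ring

/-- The sum of the quadratic function over an arithmetic progression. -/
lemma sum_qf_shift {r : ℕ} (hr : 0 < r) (s : ℝ) :
    ∑ j ∈ range r, qf (s + j / r) = r / 6 - 1 / (6 * r) + qf (r * s) / r := by
  have hr0 : (0 : ℝ) < r := by exact_mod_cast hr
  set P : ℝ → ℝ := fun s => ∑ j ∈ range r, qf (s + j / r) with hP
  have hper : Function.Periodic P (1 / r) := by
    intro s
    simp only [hP]
    have h1 : ∑ j ∈ range r, qf (s + 1 / r + j / r) = ∑ j ∈ range r, qf (s + ((j + 1 : ℕ) : ℝ) / r) := by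
      refine sum_congr rfl fun j _ => ?_
      congr 1
      push_cast
      ring
    rw [h1]
    have h2 := Finset.sum_range_succ' (fun j : ℕ => qf (s + (j : ℝ) / r)) r
    have h3 := Finset.sum_range_succ (fun j : ℕ => qf (s + (j : ℝ) / r)) r
    have h4 : qf (s + (r : ℝ) / r) = qf (s + ((0 : ℕ) : ℝ) / r) := by
      rw [div_self hr0.ne', Nat.cast_zero, zero_div, add_zero]
      have := qf_add_int s 1
      rwa [Int.cast_one] at this
    linarith
  have h1 : P s = P (Int.fract (r * s) / r) := by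
    have h2 := hper.sub_int_mul_eq (x := s) ⌊r * s⌋
    rw [← h2]
    congr 1
    have h3 : Int.fract (r * s) = r * s - ⌊r * s⌋ := by
      have := Int.fract_add_floor (r * s)
      linarith
    rw [h3]
    generalize (⌊r * s⌋ : ℝ) = z
    field_simp
  have h2 : P s = ∑ j ∈ range r, qf (s + j / r) := rfl
  rw [← h2, h1]
  obtain ⟨hx0, hx1⟩ := fract_mem (r * s)
  have hq : qf (r * s) = Int.fract (r * s) * (1 - Int.fract (r * s)) := rfl
  rw [hq]
  simp only [hP]
  generalize Int.fract (r * s) = φ at *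
  have h3 : ∀ j ∈ range r, qf (φ / r + j / r) = (φ + j) * (1 / r) * (1 - (φ + j) * (1 / r)) := by
    intro j hj
    have hj' : (j : ℝ) + 1 ≤ r := by exact_mod_cast mem_range.1 hj
    have h4 : φ / r + j / r = (φ + j) * (1 / r) := by ring
    rw [h4]
    refine qf_of_mem (by positivity) ?_
    rw [mul_one_div, div_le_one hr0]
    linarith
  rw [sum_congr rfl h3, poly_sum]
  field_simp
  ring

/-- The sum of the tent function over an arithmetic progression. -/
lemma sum_tent_shift {r : ℕ} (hr : 0 < r) {t : ℝ} (ht0 : 0 ≤ t) (ht : t ≤ 1 / 2) (s : ℝ) :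
    ∑ j ∈ range r, tent t (s + j / r) ≤ r * t ^ 2 + 1 / (4 * r) := by
  have hr0 : (0 : ℝ) < r := by exact_mod_cast hr
  have h1 : ∑ j ∈ range r, tent t (s + j / r) = r * t ^ 2 - ∑ j ∈ range r, qf (s + j / r) +
      (∑ j ∈ range r, qf (s + t + j / r) + ∑ j ∈ range r, qf (s + -t + j / r)) / 2 := by
    have g0 : ∀ j ∈ range r, tent t (s + (j : ℝ) / r) = t ^ 2 - qf (s + (j : ℝ) / r) +
        (qf (s + t + (j : ℝ) / r) + qf (s + -t + (j : ℝ) / r)) / 2 := by
      intro j _
      rw [tent_formula ht0 ht, add_right_comm s ((j : ℝ) / r) t, add_right_comm s ((j : ℝ) / r) (-t)]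
    rw [sum_congr rfl g0, sum_add_distrib, sum_sub_distrib, sum_const, card_range, nsmul_eq_mul,
      ← sum_div, sum_add_distrib]
  rw [h1, sum_qf_shift hr, sum_qf_shift hr, sum_qf_shift hr]
  have h2 := qf_nonneg (r * s)
  have h3 := qf_le (r * (s + t))
  have h4 := qf_le (r * (s + -t))
  have h5 : r * t ^ 2 - ((r : ℝ) / 6 - 1 / (6 * r) + qf (r * s) / r) +
      (r / 6 - 1 / (6 * r) + qf (r * (s + t)) / r + (r / 6 - 1 / (6 * r) + qf (r * (s + -t)) / r)) / 2
      = r * t ^ 2 + (-qf (r * s) + (qf (r * (s + t)) + qf (r * (s + -t))) / 2) / r := by ring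
  rw [h5]
  have h6 : (-qf (r * s) + (qf (r * (s + t)) + qf (r * (s + -t))) / 2) / r ≤ (1 / 4) / r :=
    div_le_div_of_nonneg_right (by linarith) hr0.le
  have h7 : (1 / 4 : ℝ) / r = 1 / (4 * r) := by
    field_simp
  linarith

lemma sum_range_mul (f : ℕ → ℝ) (D r : ℕ) :
    ∑ x ∈ range (D * r), f x = ∑ x ∈ range D, ∑ j ∈ range r, f (x + D * j) := by
  induction r with
  | zero => simp
  | succ r ih =>
    rw [Nat.mul_succ, sum_range_add, ih, ← sum_add_distrib]
    refine sum_congr rfl fun x _ => ?_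
    rw [sum_range_succ, add_comm (D * r) x]

/-- The sum of the tent function over the fractions with denominator `d`. -/
noncomputable def US (t : ℝ) (d : ℕ) : ℝ :=
  ∑ x ∈ (range d).filter (fun x => d.Coprime x), tent t ((x : ℝ) / d)

lemma US_le {t : ℝ} (ht0 : 0 ≤ t) (ht : t ≤ 1 / 2) {D r : ℕ} (hD : 0 < D) (hr : 0 < r) :
    US t (D * r) ≤ D.totient * (r * t ^ 2 + 1 / (4 * r)) := by
  classical
  have hr0 : (0 : ℝ) < r := by exact_mod_cast hr
  have hD0 : (0 : ℝ) < D := by exact_mod_cast hD
  have h1 : US t (D * r) ≤ ∑ x ∈ range (D * r), if D.Coprime x then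
      tent t ((x : ℝ) / ((D * r : ℕ) : ℝ)) else 0 := by
    unfold US
    rw [sum_filter]
    refine sum_le_sum fun x _ => ?_
    split_ifs with h2 h3
    · exact le_rfl
    · exact absurd (Nat.Coprime.coprime_dvd_left (Dvd.intro _ rfl) h2) h3
    · exact tent_nonneg _ _
    · exact le_rfl
  refine h1.trans ?_
  rw [sum_range_mul]
  have h2 : ∀ x ∈ range D, ∑ j ∈ range r, (if D.Coprime (x + D * j) then
      tent t (((x + D * j : ℕ) : ℝ) / ((D * r : ℕ) : ℝ)) else 0) ≤
      if D.Coprime x then r * t ^ 2 + 1 / (4 * r) else 0 := by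
    intro x _
    have h3 : ∀ j, D.Coprime (x + D * j) ↔ D.Coprime x := by
      intro j
      rw [Nat.coprime_add_mul_left_right]
    simp only [h3]
    split_ifs with h4
    · refine le_trans (le_of_eq (sum_congr rfl fun j _ => ?_)) (sum_tent_shift hr ht0 ht
        ((x : ℝ) / ((D * r : ℕ) : ℝ)))
      congr 1
      push_cast
      field_simp
    · simp
  refine (sum_le_sum h2).trans (le_of_eq ?_)
  rw [← sum_filter, sum_const, nsmul_eq_mul]
  rfl

end Run7.h850.PC
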