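import Pool.Agent.Run7.h850.PC.Good
import Pool.Agent.TH571.PCV.UnitsSum

set_option autoImplicit false

/-!
Sums over the multiples by units of a fraction.
-/

open Finset

namespace Run7.h850.PC

open Pool.Agent.TH571.PCV

lemma sum_fiberR {G H : Type*} [Group G] [Fintype G] [Group H] [Fintype H] (f : G →* H)
    (hf : Function.Surjective f) (g : H → ℝ) :
    (Fintype.card H : ℝ) * ∑ u, g (f u) = (Fintype.card G : ℝ) * ∑ v, g v := by
  classical
  set c : ℕ := (Finset.univ.filter (fun u : G => f u = 1)).card with hc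
  have h1 : ∀ v : H, (Finset.univ.filter (fun u : G => f u = v)).card = c := fun v =>
    MonoidHom.card_fiber_eq_of_mem_range f (hf v) (hf 1)
  have h2 : ∀ g : H → ℝ, ∑ u, g (f u) = c * ∑ v, g v := by
    intro g
    rw [← Finset.sum_fiberwise Finset.univ f, Finset.mul_sum]
    refine Finset.sum_congr rfl fun v _ => ?_
    rw [← h1 v, ← nsmul_eq_mul, ← Finset.sum_const]
    refine Finset.sum_congr rfl fun u hu => ?_
    rw [(Finset.mem_filter.1 hu).2]
  have h3 := h2 (fun _ => 1)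
  simp only [Finset.sum_const, Finset.card_univ, nsmul_eq_mul, mul_one] at h3
  rw [h2 g, h3]
  ring

lemma sum_units_valR (n : ℕ) [NeZero n] (g : ℕ → ℝ) :
    ∑ v : (ZMod n)ˣ, g (v : ZMod n).val = ∑ k ∈ (range n).filter (fun k => n.Coprime k), g k := by
  classical
  refine Finset.sum_nbij (fun v : (ZMod n)ˣ => (v : ZMod n).val) ?_ ?_ ?_ ?_
  · intro v _
    rw [Finset.mem_filter, Finset.mem_range]
    exact ⟨ZMod.val_lt _, (ZMod.val_coe_unit_coprime v).symm⟩
  · intro v _ v' _ h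
    exact Units.ext (ZMod.val_injective n h)
  · intro k hk
    rw [Finset.mem_coe, Finset.mem_filter, Finset.mem_range] at hk
    refine ⟨ZMod.unitOfCoprime k hk.2.symm, Finset.mem_coe.2 (Finset.mem_univ _), ?_⟩
    simp only [ZMod.coe_unitOfCoprime]
    rw [ZMod.val_natCast, Nat.mod_eq_of_lt hk.1]
  · intro v _; rfl

/-- The multiple of a fraction by a unit, modulo one. -/
lemma mul_val_div {N : ℕ} [NeZero N] (u : (ZMod N)ˣ) (z : ℤ) :
    ∃ k : ℤ, (((u : ZMod N).val : ℕ) : ℝ) * ((z : ℝ) / N) =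
      ((((u : ZMod N) * (z : ZMod N)).val : ℕ) : ℝ) / N + k := by
  have hN : (N : ℝ) ≠ 0 := by exact_mod_cast NeZero.ne N
  have h3 : (N : ℤ) ∣ (((u : ZMod N).val : ℕ) : ℤ) * z - ((((u : ZMod N) * (z : ZMod N)).val : ℕ) : ℤ) := by
    rw [← ZMod.intCast_zmod_eq_zero_iff_dvd]
    push_cast
    simp
  obtain ⟨k, hk⟩ := h3
  refine ⟨k, ?_⟩
  have hk' : (((u : ZMod N).val : ℕ) : ℝ) * z - ((((u : ZMod N) * (z : ZMod N)).val : ℕ) : ℝ) =
      N * k := by exact_mod_cast hk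
  field_simp
  linarith

theorem unit_tent {N : ℕ} [NeZero N] {z : ℤ} (hz : ¬ (N : ℤ) ∣ z) :
    720 * ∑ u : (ZMod N)ˣ, tent (1 / 36) ((((u : ZMod N).val : ℕ) : ℝ) * ((z : ℝ) / N)) ≤
      N.totient := by
  classical
  have hN : 0 < N := Nat.pos_of_ne_zero (NeZero.ne N)
  set δ : ZMod N := (z : ZMod N) with hδ
  set k := δ.val with hk
  set d := Nat.gcd k N with hd
  have hd0 : 0 < d := Nat.gcd_pos_of_pos_right _ hN
  obtain ⟨n, hn⟩ : d ∣ N := Nat.gcd_dvd_right _ _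
  obtain ⟨k', hk'⟩ : d ∣ k := Nat.gcd_dvd_left _ _
  have hn0 : 0 < n := by
    rcases Nat.eq_zero_or_pos n with h | h
    · rw [h, mul_zero] at hn; omega
    · exact h
  have : NeZero n := ⟨hn0.ne'⟩
  have hcop : Nat.Coprime k' n := by
    have h1 : Nat.gcd (d * k') (d * n) = d := by rw [← hk', ← hn]
    rw [Nat.gcd_mul_left] at h1
    exact Nat.eq_of_mul_eq_mul_left hd0 (by rw [h1, mul_one])
  have hn2 : 2 ≤ n := by
    by_contra h
    have h1 : n = 1 := by omega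
    apply hz
    rw [← ZMod.intCast_zmod_eq_zero_iff_dvd, ← hδ, ← ZMod.val_eq_zero, ← hk, hk']
    rw [h1, mul_one] at hn
    have h2 : k < N := ZMod.val_lt δ
    rw [hk', hn] at h2
    rcases Nat.eq_zero_or_pos k' with h3 | h3
    · rw [h3, mul_zero]
    · exfalso
      have := Nat.le_mul_of_pos_right d h3
      omega
  have hnN : n ∣ N := ⟨d, by rw [hn, mul_comm]⟩
  let κ : (ZMod n)ˣ := ZMod.unitOfCoprime k' hcop
  -- the residue of the multiple
  have h1 : ∀ u : (ZMod N)ˣ, ((u : ZMod N) * δ).val =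
      d * (((ZMod.unitsMap hnN u) * κ : (ZMod n)ˣ) : ZMod n).val := by
    intro u
    have h2 : ((u : ZMod N) * δ).val = ((u : ZMod N).val * k) % N := by rw [ZMod.val_mul]
    have h3 : (((ZMod.unitsMap hnN u) * κ : (ZMod n)ˣ) : ZMod n) =
        (((u : ZMod N).val * k' : ℕ) : ZMod n) := by
      rw [Units.val_mul, ZMod.coe_unitOfCoprime, ZMod.unitsMap_val, Nat.cast_mul,
        ZMod.natCast_val]
    rw [h3, ZMod.val_natCast, h2, hk', mul_left_comm]
    generalize (u : ZMod N).val * k' = t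
    rw [hn, Nat.mul_mod_mul_left]
  have hdr : (d : ℝ) ≠ 0 := by exact_mod_cast hd0.ne'
  have h4 : ∑ u : (ZMod N)ˣ, tent (1 / 36) ((((u : ZMod N).val : ℕ) : ℝ) * ((z : ℝ) / N)) =
      ∑ u : (ZMod N)ˣ, (fun v : (ZMod n)ˣ =>
        tent (1 / 36) (((((v * κ : (ZMod n)ˣ) : ZMod n).val : ℕ) : ℝ) / n))
        (ZMod.unitsMap hnN u) := by
    refine Finset.sum_congr rfl fun u _ => ?_
    obtain ⟨j, hj⟩ := mul_val_div u z
    rw [hj, tent_add_int, ← hδ, h1 u]
    simp only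
    congr 1
    have hNr : (N : ℝ) = d * n := by exact_mod_cast hn
    rw [hNr, Nat.cast_mul, mul_div_mul_left _ _ hdr]
  have h5 := sum_fiberR (ZMod.unitsMap hnN) (ZMod.unitsMap_surjective hnN)
    (fun v : (ZMod n)ˣ => tent (1 / 36) (((((v * κ : (ZMod n)ˣ) : ZMod n).val : ℕ) : ℝ) / n))
  rw [← h4] at h5
  have h6 : ∑ v : (ZMod n)ˣ, tent (1 / 36) (((((v * κ : (ZMod n)ˣ) : ZMod n).val : ℕ) : ℝ) / n) =
      US (1 / 36) n := by
    have h12 := Equiv.sum_comp (Equiv.mulRight κ) (fun v : (ZMod n)ˣ =>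
      tent (1 / 36) ((((v : ZMod n).val : ℕ) : ℝ) / n))
    simp only [Equiv.coe_mulRight] at h12
    rw [h12]
    exact sum_units_valR n (fun x => tent (1 / 36) ((x : ℝ) / n))
  rw [h6, ZMod.card_units_eq_totient, ZMod.card_units_eq_totient] at h5
  have h7 := US_bound hn2
  have hφ : (0 : ℝ) < n.totient := by exact_mod_cast Nat.totient_pos.2 hn0
  have hφN : (0 : ℝ) ≤ N.totient := Nat.cast_nonneg _
  set S := ∑ u : (ZMod N)ˣ, tent (1 / 36) ((((u : ZMod N).val : ℕ) : ℝ) * ((z : ℝ) / N)) with hS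
  have h8 : (n.totient : ℝ) * (720 * S) ≤ n.totient * N.totient := by
    calc (n.totient : ℝ) * (720 * S) = N.totient * (720 * US (1 / 36) n) := by
          linear_combination 720 * h5
      _ ≤ N.totient * n.totient := mul_le_mul_of_nonneg_left h7 hφN
      _ = n.totient * N.totient := mul_comm _ _
  exact le_of_mul_le_mul_left h8 hφ

lemma qf_val {N : ℕ} [NeZero N] (x : ZMod N) :
    qf (((x.val : ℕ) : ℝ) / N) = ((x.val : ℝ) * (N - x.val)) / N ^ 2 := by
  have hN : (0 : ℝ) < N := by exact_mod_cast Nat.pos_of_ne_zero (NeZero.ne N)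
  have hx : (x.val : ℝ) ≤ N := by exact_mod_cast (ZMod.val_lt x).le
  rw [qf_of_mem (by positivity) (by rw [div_le_one hN]; exact hx)]
  field_simp

theorem unit_qf {N : ℕ} [NeZero N] (z : ℤ) :
    6 * ∑ u : (ZMod N)ˣ, qf ((((u : ZMod N).val : ℕ) : ℝ) * ((z : ℝ) / N)) =
      N.totient * (1 - ((gam ((z : ℚ) / N) : ℚ) : ℝ)) := by
  have hN : (0 : ℝ) < N := by exact_mod_cast Nat.pos_of_ne_zero (NeZero.ne N)
  have hNq : (N : ℚ) ≠ 0 := by exact_mod_cast NeZero.ne N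
  have h1 := unit_sum N (z : ZMod N)
  have h2 : gam ((((z : ZMod N).val : ℕ) : ℚ) / N) = gam ((z : ℚ) / N) := by
    have h3 : (N : ℤ) ∣ z - ((z : ZMod N).val : ℤ) := by
      rw [← ZMod.intCast_zmod_eq_zero_iff_dvd]
      simp
    obtain ⟨k, hk⟩ := h3
    have h4 : (z : ℚ) / N = (((z : ZMod N).val : ℕ) : ℚ) / N + (k : ℤ) := by
      have h5 : (z : ℚ) = ((z : ZMod N).val : ℕ) + N * k := by
        have : z = ((z : ZMod N).val : ℤ) + N * k := by linarith
        exact_mod_cast this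
      rw [h5]
      field_simp
    rw [h4, gam_add_int]
  rw [h2] at h1
  have h3 : ∑ u : (ZMod N)ˣ, qf ((((u : ZMod N).val : ℕ) : ℝ) * ((z : ℝ) / N)) =
      ((∑ u : (ZMod N)ˣ, ((((u : ZMod N) * (z : ZMod N)).val : ℤ) *
        (N - ((u : ZMod N) * (z : ZMod N)).val)) : ℤ) : ℝ) / N ^ 2 := by
    push_cast
    rw [sum_div]
    refine sum_congr rfl fun u _ => ?_
    obtain ⟨j, hj⟩ := mul_val_div u z
    rw [hj, qf_add_int, qf_val]
  rw [h3]
  have h4 : 6 * ((∑ u : (ZMod N)ˣ, ((((u : ZMod N) * (z : ZMod N)).val : ℤ) *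
        (N - ((u : ZMod N) * (z : ZMod N)).val)) : ℤ) : ℝ) =
      (N.totient : ℝ) * (N : ℝ) ^ 2 * (1 - ((gam ((z : ℚ) / N) : ℚ) : ℝ)) := by
    exact_mod_cast congrArg (fun x : ℚ => (x : ℝ)) h1
  rw [mul_div_assoc', h4]
  field_simp

end Run7.h850.PC
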