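import Pool.Agent.Run7.h850.PC.Avg
import Pool.Agent.R340.PC.GenVec
import Pool.Agent.R340.SY.Ineq

set_option autoImplicit false

/-!
Weights of parabolic bundles of rank two with four points with non-integral differences.
-/

open Finset

namespace Run7.h850.PC

open Pool.Agent.TH571.PCV Pool.Agent.Y227.SS Pool.Agent.R340.SY Pool.Agent.R340.PC

section

variable {m : ℕ} (lam : Fin m → Fin 2 → ℚ) (phi : Fin 2 → ℚ) (P : Fin 4 → Option (Fin m))

/-- The difference of the exponents at a point. -/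
def diff (x : Option (Fin m)) : ℚ := expo lam phi x 0 - expo lam phi x 1

/-- The points different from the `P i`. -/
def rest : Finset (Option (Fin m)) := univ.filter fun x => ∀ i, P i ≠ x

/-- The sum of the exponents number `κ i` at the points `P i` and of the exponents number `0` at
the other points. -/
def total (κ : Fin 4 → Fin 2) : ℚ :=
  ∑ i, expo lam phi (P i) (κ i) + ∑ x ∈ rest P, expo lam phi x 0

variable {lam phi P}

lemma sum_split {M : Type*} [AddCommMonoid M] (hP : Function.Injective P)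
    (f : Option (Fin m) → M) : ∑ x, f x = ∑ i, f (P i) + ∑ x ∈ rest P, f x := by
  classical
  rw [← sum_filter_add_sum_filter_not univ (fun x => ∀ i, P i ≠ x), add_comm]
  congr 1
  have h1 : univ.filter (fun x => ¬ ∀ i, P i ≠ x) = univ.image P := by
    ext x
    simp only [mem_filter, mem_univ, true_and, mem_image]
    push Not
    rfl
  rw [h1, sum_image fun i _ j _ h => hP h]

lemma mem_rest {x : Option (Fin m)} : x ∈ rest P ↔ ∀ i, P i ≠ x := by
  unfold rest; simp

/-- The sums in terms of the differences. -/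
lemma total_eq (hP : Function.Injective P) {f : ℤ}
    (hfu : ∑ j, (lam j 0 + lam j 1) = phi 0 + phi 1 + f) {e : ℤ}
    (he : ∑ x ∈ rest P, diff lam phi x + f = e) (κ : Fin 4 → Fin 2) :
    (∑ i, (sz (κ i) : ℚ) * diff lam phi (P i) + e) / 2 = total lam phi P κ + ((0 : ℤ) : ℚ) := by
  have h1 : ∑ x, (expo lam phi x 0 + expo lam phi x 1) = f := by
    rw [Fintype.sum_option]
    have h2 : ∀ j : Fin m, expo lam phi (some j) 0 + expo lam phi (some j) 1 =
        lam j 0 + lam j 1 := fun j => rfl
    rw [sum_congr rfl fun j _ => h2 j, hfu]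
    simp only [expo]
    ring
  rw [sum_split hP] at h1
  have h3 : ∑ i, expo lam phi (P i) (κ i) = (∑ i, (expo lam phi (P i) 0 + expo lam phi (P i) 1) +
      ∑ i, (sz (κ i) : ℚ) * diff lam phi (P i)) / 2 := by
    rw [← sum_add_distrib, sum_div]
    refine sum_congr rfl fun i _ => ?_
    have h01 : ∀ k : Fin 2, k = 0 ∨ k = 1 := by decide
    unfold diff sz
    rcases h01 (κ i) with h | h
    · rw [h]; simp only [if_true]; push_cast; ring
    · rw [h]; simp only [one_ne_zero, if_false]; push_cast; ring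
  have h4 : ∑ x ∈ rest P, expo lam phi x 0 =
      (∑ x ∈ rest P, (expo lam phi x 0 + expo lam phi x 1) + ∑ x ∈ rest P, diff lam phi x) / 2 := by
    rw [← sum_add_distrib, sum_div]
    refine sum_congr rfl fun x _ => ?_
    unfold diff
    ring
  unfold total
  rw [h3, h4, ← he]
  push_cast
  linear_combination -h1 / 2

/-- A vector of shifts. -/
lemma stable_shift (hP : Function.Injective P) {f : ℤ}
    (hfu : ∑ j, (lam j 0 + lam j 1) = phi 0 + phi 1 + f) {D : Option (Fin m) → ℤ}
    (hD : ∀ x ∈ rest P, diff lam phi x = D x) (a : ℤ)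
    (hst : StableWeights ℂ (fun j l => (a : ℝ) * lam j l) (fun l => (a : ℝ) * phi l))
    (n : Fin 4 → ℤ) (hn : Odd (∑ i, n i + a * (∑ x ∈ rest P, D x + f))) :
    1 < ∑ i, |(a : ℝ) * ((diff lam phi (P i) : ℚ) : ℝ) + n i| := by
  classical
  set ν : Option (Fin m) → ℤ := fun x => if h : ∃ i, P i = x then n h.choose else -a * D x with hν
  have hνP : ∀ i, ν (P i) = n i := by
    intro i
    have h : ∃ j, P j = P i := ⟨i, rfl⟩
    simp only [hν, dif_pos h]
    congr 1
    exact hP h.choose_spec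
  have hνr : ∀ x ∈ rest P, ν x = -a * D x := by
    intro x hx
    have h : ¬ ∃ i, P i = x := fun ⟨i, hi⟩ => mem_rest.1 hx i hi
    simp only [hν, dif_neg h]
  have hsum : ∑ x, ν x = ∑ i, n i - a * ∑ x ∈ rest P, D x := by
    rw [sum_split hP, sum_congr rfl fun i _ => hνP i, sum_congr rfl hνr, ← mul_sum]
    ring
  have hodd : Odd (∑ j, ν (some j) + -ν none + a * f) := by
    rw [Fintype.sum_option] at hsum
    obtain ⟨c, hc⟩ := hn
    refine ⟨c - a * ∑ x ∈ rest P, D x - ν none, ?_⟩
    linear_combination hsum + hc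
  have hgen := gen_vector hst (fun j => (a : ℝ) * ((diff lam phi (some j) : ℚ) : ℝ) + ν (some j))
    (-((a : ℝ) * ((diff lam phi none : ℚ) : ℝ) + ν none)) (fun j => ν (some j)) (-ν none) (a * f)
    (by
      intro j
      simp only [diff, expo]
      push_cast
      ring) (by
      simp only [diff, expo]
      push_cast
      ring) (by
      have h1 : ((∑ j, (lam j 0 + lam j 1) : ℚ) : ℝ) = ((phi 0 + phi 1 + f : ℚ) : ℝ) := by
        rw [hfu]
      push_cast at h1 ⊢
      have h2 : ∀ j, (a : ℝ) * (lam j 0 : ℝ) + a * (lam j 1 : ℝ) = a * ((lam j 0 : ℝ) + lam j 1) := by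
        intro j; ring
      rw [sum_congr rfl fun j _ => h2 j, ← mul_sum, h1]
      ring) hodd
  rw [abs_neg] at hgen
  have h3 : ∑ x, |(a : ℝ) * ((diff lam phi x : ℚ) : ℝ) + ν x| =
      ∑ j, |(a : ℝ) * ((diff lam phi (some j) : ℚ) : ℝ) + ν (some j)| +
        |(a : ℝ) * ((diff lam phi none : ℚ) : ℝ) + ν none| := by
    rw [Fintype.sum_option]
    ring
  rw [← h3, sum_split hP] at hgen
  have h4 : ∑ x ∈ rest P, |(a : ℝ) * ((diff lam phi x : ℚ) : ℝ) + ν x| = 0 := by
    refine sum_eq_zero fun x hx => ?_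
    rw [hνr x hx, hD x hx]
    push_cast
    rw [neg_mul, add_neg_cancel, abs_zero]
  rw [h4, add_zero] at hgen
  refine hgen.trans_eq (sum_congr rfl fun i _ => ?_)
  rw [hνP i]

lemma den_one {q : ℚ} (h : q.den = 1) : ∃ z : ℤ, q = z := ⟨q.num, (Rat.coe_int_num_of_den_eq_one h).symm⟩

lemma not_int {q : ℚ} (h : q.den ≠ 1) : ¬ ∃ z : ℤ, q = z := by
  rintro ⟨z, rfl⟩
  exact h (by simp)

open Classical in
/-- **The average over the conjugate weights.** -/
theorem weights_avg {N : ℕ} [NeZero N] (hP : Function.Injective P) {f : ℤ}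
    (hfu : ∑ j, (lam j 0 + lam j 1) = phi 0 + phi 1 + f)
    (hlam : ∀ j l, ∃ z : ℤ, (N : ℚ) * lam j l = z) (hphi : ∀ l, ∃ z : ℤ, (N : ℚ) * phi l = z)
    (hint : ∀ x ∈ rest P, (diff lam phi x).den = 1) (hθ : ∀ i, (diff lam phi (P i)).den ≠ 1)
    (hs : ∀ κ, (total lam phi P κ).den ≠ 1) :
    3 / 74 * (4 / 15 - ((excess (fun i => diff lam phi (P i)) (total lam phi P) : ℚ) : ℝ)) *
      N.totient ≤ (univ.filter fun u : (ZMod N)ˣ => ¬ StableWeights ℂ
        (fun j l => ((((u : ZMod N).val : ℤ)) : ℝ) * lam j l)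
        (fun l => ((((u : ZMod N).val : ℤ)) : ℝ) * phi l)).card := by
  have hx : ∀ x, ∃ D : ℤ, x ∈ rest P → diff lam phi x = D := by
    intro x
    by_cases h : x ∈ rest P
    · obtain ⟨z, hz⟩ := den_one (hint x h)
      exact ⟨z, fun _ => hz⟩
    · exact ⟨0, fun h' => absurd h' h⟩
  choose D hD using hx
  have hexp : ∀ x l, ∃ z : ℤ, (N : ℚ) * expo lam phi x l = z := by
    intro x l
    match x with
    | none =>
      obtain ⟨z, hz⟩ := hphi l
      refine ⟨-z, ?_⟩
      simp only [expo]
      push_cast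
      rw [← hz]
      ring
    | some j => exact hlam j l
  choose E hE using hexp
  refine average (N := N) (e := ∑ x ∈ rest P, D x + f) (fun i => ?_) (fun κ => ?_) (fun κ => ?_)
    (fun i => not_int (hθ i)) (fun κ => not_int (hs κ)) _ (fun u hu n hn => ?_)
  · refine ⟨E (P i) 0 - E (P i) 1, ?_⟩
    unfold diff
    push_cast
    rw [← hE, ← hE]
    ring
  · refine ⟨∑ i, E (P i) (κ i) + ∑ x ∈ rest P, E x 0, ?_⟩
    unfold total
    push_cast
    rw [mul_add, mul_sum, mul_sum]
    congr 1
    · exact sum_congr rfl fun i _ => hE _ _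
    · exact sum_congr rfl fun i _ => hE _ _
  · refine ⟨0, ?_⟩
    refine total_eq hP hfu ?_ κ
    push_cast
    congr 1
    exact sum_congr rfl fun x hx => hD x hx
  · have hst : StableWeights ℂ
        (fun j l => ((((u : ZMod N).val : ℤ)) : ℝ) * lam j l)
        (fun l => ((((u : ZMod N).val : ℤ)) : ℝ) * phi l) := by
      by_contra h
      exact hu (mem_filter.2 ⟨mem_univ _, h⟩)
    refine (stable_shift hP hfu (fun x hx => hD x hx) _ hst n hn).trans_eq
      (sum_congr rfl fun i _ => ?_)
    unfold yy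
    push_cast
    rfl

end

end Run7.h850.PC
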